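import Pool.Agent.H567R2.MM.Stubs

/-! BD: the exceptional set is small (helper64) -/

namespace H567MM.P

open MeasureTheory Filter Topology

/-- a map to a countable set takes its values in a finite set, outside a small set -/
theorem BD_aux_finset {X G : Type*} [MeasurableSpace X] (μ : Measure X)
    [IsProbabilityMeasure μ] [Countable G] (v : X → G)
    (hv : ∀ g : G, MeasurableSet {x | v x = g}) (ε : ℝ) (hε : 0 < ε) :
    ∃ Φ : Finset G, μ.real {x | v x ∉ Φ} < ε := by
  classical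
  have hU : (⋃ g : G, {x | v x = g}) = Set.univ := by
    ext x
    simp
  have hdis : Pairwise (Function.onFun Disjoint fun g : G => {x | v x = g}) := by
    intro g g' hne
    rw [Function.onFun, Set.disjoint_left]
    intro x hx hx'
    exact hne (hx.symm.trans hx')
  have h1 : ∑' g : G, μ {x | v x = g} = 1 := by
    rw [← measure_iUnion hdis hv, hU, measure_univ]
  have h2 : Tendsto (fun Φ : Finset G => ∑ g ∈ Φ, μ {x | v x = g}) atTop (𝓝 1) := by
    rw [← h1]
    exact ENNReal.summable.hasSum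
  have h3 : ∀ Φ : Finset G, μ {x | v x ∈ Φ} = ∑ g ∈ Φ, μ {x | v x = g} := by
    intro Φ
    have : {x | v x ∈ Φ} = ⋃ g ∈ Φ, {x | v x = g} := by
      ext x
      simp
    rw [this, measure_biUnion_finset (fun g _ g' _ hne => hdis hne) (fun g _ => hv g)]
  have h4 : ∀ᶠ Φ : Finset G in atTop, ENNReal.ofReal (1 - ε) < ∑ g ∈ Φ, μ {x | v x = g} := by
    apply h2.eventually_const_lt
    rw [← ENNReal.ofReal_one]
    exact (ENNReal.ofReal_lt_ofReal_iff (by norm_num)).2 (by linarith)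
  obtain ⟨Φ, hΦ⟩ := h4.exists
  refine ⟨Φ, ?_⟩
  rw [← h3] at hΦ
  have hm : MeasurableSet {x | v x ∈ Φ} := by
    have : {x | v x ∈ Φ} = ⋃ g ∈ Φ, {x | v x = g} := by
      ext x
      simp
    rw [this]
    exact Finset.measurableSet_biUnion _ fun g _ => hv g
  have h5 : {x | v x ∉ Φ} = {x | v x ∈ Φ}ᶜ := rfl
  rw [h5, probReal_compl_eq_one_sub hm]
  have h6 : 1 - ε < μ.real {x | v x ∈ Φ} := by
    by_contra hcon
    push Not at hcon
    have : μ {x | v x ∈ Φ} ≤ ENNReal.ofReal (1 - ε) := by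
      rw [← ofReal_measureReal (measure_ne_top μ _)]
      exact ENNReal.ofReal_le_ofReal hcon
    exact absurd hΦ (not_lt.2 this)
  linarith

/-- the levels of the cocycle are measurable -/
theorem BD_aux_meas {X K : Type*} [MeasurableSpace X] (μ : Measure X)
    (S : X → X) (hS : MeasurePreserving S μ μ) [Field K] [Countable K] (φ : X → Kˣ)
    (hφ : ∀ g : Kˣ, MeasurableSet {x | φ x = g}) (n : ℕ) (D : Set Kˣ) :
    MeasurableSet {x | coc S φ n x ∈ D} := by
  have : Countable Kˣ := Units.val_injective.countable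
  let _ : MeasurableSpace Kˣ := ⊤
  have : DiscreteMeasurableSpace Kˣ := ⟨fun _ => trivial⟩
  have hφm : Measurable φ := measurable_to_countable' fun g => hφ g
  have h := coc_measurable S hS.measurable φ hφm n
  exact h (MeasurableSet.of_discrete (s := D))

theorem bad_small {X K : Type*} [MeasurableSpace X] (μ : Measure X) [IsProbabilityMeasure μ]
    (S : X → X) (hS : MeasurePreserving S μ μ) [Field K] [Countable K] (φ : X → Kˣ)
    (hφ : ∀ g : Kˣ, MeasurableSet {x | φ x = g}) {s : ℕ}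
    (IH : ∀ v : Fin (s + 1) → K, v ≠ 0 → ∀ ε : ℝ, 0 < ε → ∃ G : ℕ, ∀ n : Fin (s + 1) → ℕ,
      Gaps G n → μ.real {x | ∑ i, v i * cv S φ (n i) x = 0} < ε)
    (w : Fin (s + 2) → K) (t t' : ℕ) (ε : ℝ) (hε : 0 < ε) :
    ∃ G : ℕ, ∀ n : Fin (s + 2) → ℕ, Gaps G n → μ.real {x |
      ∑ i : Fin (s + 1), w i.succ * br S φ t t' (S^[n i.succ] x) (S^[n 0] x) *
          cv S φ (n i.succ) x = 0 ∧
      (fun i : Fin (s + 1) => w i.succ * br S φ t t' (S^[n i.succ] x) (S^[n 0] x)) ≠ 0} < ε := by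
  classical
  have : Countable Kˣ := Units.val_injective.countable
  set η : ℝ := ε / (4 * ((s : ℝ) + 2)) with hη
  have hη0 : 0 < η := by positivity
  obtain ⟨Φ1, hΦ1⟩ := BD_aux_finset μ (coc S φ t) (fun g => by
    have := BD_aux_meas μ S hS φ hφ t {g}
    simpa using this) η hη0
  obtain ⟨Φ2, hΦ2⟩ := BD_aux_finset μ (coc S φ t') (fun g => by
    have := BD_aux_meas μ S hS φ hφ t' {g}
    simpa using this) η hη0
  -- the finite set of vectors
  set vec : (Fin (s + 2) → Kˣ) × (Fin (s + 2) → Kˣ) → Fin (s + 1) → K := fun ab i =>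
    w i.succ * ((ab.1 i.succ : K) * (ab.2 0 : K) - (ab.2 i.succ : K) * (ab.1 0 : K)) with hvec
  set V : Finset (Fin (s + 1) → K) := ((Fintype.piFinset fun _ : Fin (s + 2) => Φ1) ×ˢ
    (Fintype.piFinset fun _ : Fin (s + 2) => Φ2)).image vec with hV
  set δ : ℝ := ε / (2 * ((V.card : ℝ) + 1)) with hδ
  have hδ0 : 0 < δ := by positivity
  have IH' : ∀ v : Fin (s + 1) → K, ∃ G : ℕ, v ≠ 0 → ∀ n : Fin (s + 1) → ℕ,
      Gaps G n → μ.real {x | ∑ i, v i * cv S φ (n i) x = 0} < δ := by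
    intro v
    by_cases h : v = 0
    · exact ⟨0, fun h' => absurd h h'⟩
    · obtain ⟨G, hG⟩ := IH v h δ hδ0
      exact ⟨G, fun _ => hG⟩
  choose G hG using IH'
  refine ⟨V.sup G, fun n hn => ?_⟩
  set B : Set X := {x | ∑ i : Fin (s + 1), w i.succ * br S φ t t' (S^[n i.succ] x) (S^[n 0] x) *
          cv S φ (n i.succ) x = 0 ∧
      (fun i : Fin (s + 1) => w i.succ * br S φ t t' (S^[n i.succ] x) (S^[n 0] x)) ≠ 0} with hB
  have hsub : B ⊆ ((⋃ i ∈ (Finset.univ : Finset (Fin (s + 2))), S^[n i] ⁻¹' {x | coc S φ t x ∉ Φ1}) ∪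
      (⋃ i ∈ (Finset.univ : Finset (Fin (s + 2))), S^[n i] ⁻¹' {x | coc S φ t' x ∉ Φ2})) ∪
      ⋃ v ∈ V.filter (fun v => v ≠ 0), {x | ∑ i, v i * cv S φ (n i.succ) x = 0} := by
    intro x hx
    by_cases h1 : ∃ i, coc S φ t (S^[n i] x) ∉ Φ1
    · obtain ⟨i, hi⟩ := h1
      left; left
      rw [Set.mem_iUnion₂]
      exact ⟨i, Finset.mem_univ i, hi⟩
    by_cases h2 : ∃ i, coc S φ t' (S^[n i] x) ∉ Φ2
    · obtain ⟨i, hi⟩ := h2
      left; right
      rw [Set.mem_iUnion₂]
      exact ⟨i, Finset.mem_univ i, hi⟩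
    push Not at h1 h2
    right
    rw [Set.mem_iUnion₂]
    have hveq : vec (fun i => coc S φ t (S^[n i] x), fun i => coc S φ t' (S^[n i] x)) =
        fun i : Fin (s + 1) => w i.succ * br S φ t t' (S^[n i.succ] x) (S^[n 0] x) := by
      funext i
      simp only [hvec, br, cv]
    refine ⟨vec (fun i => coc S φ t (S^[n i] x), fun i => coc S φ t' (S^[n i] x)), ?_, ?_⟩
    · rw [Finset.mem_filter]
      constructor
      · rw [hV]
        apply Finset.mem_image_of_mem
        rw [Finset.mem_product]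
        constructor
        · rw [Fintype.mem_piFinset]
          exact h1
        · rw [Fintype.mem_piFinset]
          exact h2
      · rw [hveq]
        exact hx.2
    · rw [hveq]
      exact hx.1
  have hpre1 : ∀ i : Fin (s + 2), μ.real (S^[n i] ⁻¹' {x | coc S φ t x ∉ Φ1}) ≤ η := by
    intro i
    have hm : MeasurableSet {x | coc S φ t x ∉ Φ1} :=
      BD_aux_meas μ S hS φ hφ t {g | g ∉ Φ1}
    have : μ.real (S^[n i] ⁻¹' {x | coc S φ t x ∉ Φ1}) = μ.real {x | coc S φ t x ∉ Φ1} := by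
      unfold Measure.real
      rw [(hS.iterate (n i)).measure_preimage hm.nullMeasurableSet]
    rw [this]
    exact hΦ1.le
  have hpre2 : ∀ i : Fin (s + 2), μ.real (S^[n i] ⁻¹' {x | coc S φ t' x ∉ Φ2}) ≤ η := by
    intro i
    have hm : MeasurableSet {x | coc S φ t' x ∉ Φ2} :=
      BD_aux_meas μ S hS φ hφ t' {g | g ∉ Φ2}
    have : μ.real (S^[n i] ⁻¹' {x | coc S φ t' x ∉ Φ2}) = μ.real {x | coc S φ t' x ∉ Φ2} := by
      unfold Measure.real
      rw [(hS.iterate (n i)).measure_preimage hm.nullMeasurableSet]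
    rw [this]
    exact hΦ2.le
  have hgap : ∀ v ∈ V.filter (fun v => v ≠ 0),
      μ.real {x | ∑ i, v i * cv S φ (n i.succ) x = 0} ≤ δ := by
    intro v hv
    rw [Finset.mem_filter] at hv
    refine (hG v hv.2 (fun i => n i.succ) ?_).le
    intro i j hij
    have h1 := hn i.succ j.succ (Fin.succ_lt_succ_iff.2 hij)
    have h2 := Finset.le_sup (f := G) hv.1
    show n i.succ + G v ≤ n j.succ
    omega
  have h1 : μ.real B ≤ (∑ i : Fin (s + 2), μ.real (S^[n i] ⁻¹' {x | coc S φ t x ∉ Φ1}) +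
      ∑ i : Fin (s + 2), μ.real (S^[n i] ⁻¹' {x | coc S φ t' x ∉ Φ2})) +
      ∑ v ∈ V.filter (fun v => v ≠ 0), μ.real {x | ∑ i, v i * cv S φ (n i.succ) x = 0} := by
    refine (measureReal_mono hsub).trans ((measureReal_union_le _ _).trans (add_le_add
      ((measureReal_union_le _ _).trans (add_le_add ?_ ?_)) ?_))
    · exact measureReal_biUnion_finset_le _ _
    · exact measureReal_biUnion_finset_le _ _
    · exact measureReal_biUnion_finset_le _ _
  have h2 : ∑ i : Fin (s + 2), μ.real (S^[n i] ⁻¹' {x | coc S φ t x ∉ Φ1}) ≤ (s + 2) * η := by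
    refine (Finset.sum_le_sum fun i _ => hpre1 i).trans (le_of_eq ?_)
    rw [Finset.sum_const, Finset.card_univ, Fintype.card_fin, nsmul_eq_mul]
    push_cast
    ring
  have h3 : ∑ i : Fin (s + 2), μ.real (S^[n i] ⁻¹' {x | coc S φ t' x ∉ Φ2}) ≤ (s + 2) * η := by
    refine (Finset.sum_le_sum fun i _ => hpre2 i).trans (le_of_eq ?_)
    rw [Finset.sum_const, Finset.card_univ, Fintype.card_fin, nsmul_eq_mul]
    push_cast
    ring
  have h4 : ∑ v ∈ V.filter (fun v => v ≠ 0), μ.real {x | ∑ i, v i * cv S φ (n i.succ) x = 0} ≤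
      V.card * δ := by
    refine (Finset.sum_le_sum hgap).trans ?_
    rw [Finset.sum_const, nsmul_eq_mul]
    have : ((V.filter (fun v => v ≠ 0)).card : ℝ) ≤ V.card := by
      exact_mod_cast Finset.card_filter_le _ _
    exact mul_le_mul_of_nonneg_right this hδ0.le
  have h5 : (V.card : ℝ) * δ < ε / 2 := by
    rw [hδ, ← mul_div_assoc, div_lt_div_iff₀ (by positivity) (by norm_num)]
    nlinarith
  have h6 : ((s : ℝ) + 2) * η = ε / 4 := by
    rw [hη]
    have : (s : ℝ) + 2 ≠ 0 := by positivity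
    field_simp
  linarith

end H567MM.P
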