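import Pool.Agent.H567R2.MM.Stubs

namespace H567MM.P

open MeasureTheory Filter Topology

theorem CB_aux_meas {Ω κ α : Type*} [MeasurableSpace Ω] [Countable κ] [MeasurableSpace α]
    (fs : Ω → κ) (h : ∀ s, MeasurableSet {ω | fs ω = s}) (F : κ → α) :
    Measurable (fun ω => F (fs ω)) := by
  intro t _
  have e : (fun ω => F (fs ω)) ⁻¹' t = ⋃ s ∈ {s | F s ∈ t}, {ω | fs ω = s} := by
    ext ω
    simp
  rw [e]
  exact MeasurableSet.biUnion (Set.to_countable _) (fun s _ => h s)

theorem exists_cob {Ω G : Type*} [MeasurableSpace Ω] (P : Measure Ω)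
    [IsProbabilityMeasure P] (S : Ω → Ω) (hS : Ergodic S P) [CommGroup G]
    [Countable G] [MeasurableSpace G] [DiscreteMeasurableSpace G] (ψ : Ω → G)
    (hψ : Measurable ψ) (B : Set (Ω × G)) (hB : MeasurableSet B)
    (h0 : (P.prod Measure.count) B ≠ 0) (h1 : (P.prod Measure.count) B ≠ ⊤)
    (hinv : ∀ᵐ ω ∂P, ∀ g : G, ((ω, g) ∈ B ↔ (S ω, g * ψ ω) ∈ B)) :
    ∃ f : ℕ, 0 < f ∧ ∃ u : Ω → G, Measurable u ∧ ∀ᵐ ω ∂P, u (S ω) = u ω * ψ ω ^ f := by
  classical
  have hBg : ∀ g, MeasurableSet {ω | (ω, g) ∈ B} := fun g => measurable_prodMk_right hB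
  set F : Ω → Set G := fun ω => Prod.mk ω ⁻¹' B with hF
  set fs : Ω → Finset G := fun ω => if h : (F ω).Finite then h.toFinset else ∅ with hfs
  have hfin : ∀ ω, (F ω).Finite → ((fs ω : Finset G) : Set G) = F ω := by
    intro ω h
    simp only [hfs, dif_pos h, Set.Finite.coe_toFinset]
  have hset : ∀ ω (s : Finset G), s.Nonempty → (fs ω = s ↔ ∀ g, ((ω, g) ∈ B ↔ g ∈ s)) := by
    intro ω s hs
    constructor
    · intro h g
      have hf : (F ω).Finite := by
        by_contra hc
        simp only [hfs, dif_neg hc] at h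
        exact hs.ne_empty h.symm
      have h2 := hfin ω hf
      rw [h] at h2
      have : g ∈ (s : Set G) ↔ g ∈ F ω := by rw [h2]
      rw [Finset.mem_coe] at this
      exact this.symm
    · intro h
      have e : F ω = (s : Set G) := by
        ext g
        exact h g
      have hf : (F ω).Finite := by rw [e]; exact s.finite_toSet
      have h2 := hfin ω hf
      rw [e] at h2
      exact Finset.coe_injective h2
  have hms : ∀ s : Finset G, s.Nonempty → MeasurableSet {ω | fs ω = s} := by
    intro s hs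
    have e : {ω | fs ω = s} = ⋂ g : G, {ω | (ω, g) ∈ B ↔ g ∈ s} := by
      ext ω
      simp only [Set.mem_ofPred_eq, Set.mem_iInter]
      exact hset ω s hs
    rw [e]
    refine MeasurableSet.iInter (fun g => ?_)
    by_cases hg : g ∈ s
    · have : {ω | (ω, g) ∈ B ↔ g ∈ s} = {ω | (ω, g) ∈ B} := by
        ext ω; simp [hg]
      rw [this]; exact hBg g
    · have : {ω | (ω, g) ∈ B ↔ g ∈ s} = {ω | (ω, g) ∈ B}ᶜ := by
        ext ω; simp [hg]
      rw [this]; exact (hBg g).compl
  have hm : ∀ s : Finset G, MeasurableSet {ω | fs ω = s} := by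
    intro s
    rcases s.eq_empty_or_nonempty with rfl | hs
    · have e : {ω | fs ω = ∅} = (⋃ s ∈ {s : Finset G | s.Nonempty}, {ω | fs ω = s})ᶜ := by
        ext ω
        simp only [Set.mem_ofPred_eq, Set.mem_compl_iff, Set.mem_iUnion, not_exists, exists_prop]
        constructor
        · rintro h s ⟨hs, rfl⟩
          exact hs.ne_empty h
        · intro h
          by_contra hc
          exact h (fs ω) ⟨Finset.nonempty_iff_ne_empty.mpr hc, rfl⟩
      rw [e]
      exact (MeasurableSet.biUnion (Set.to_countable _) (fun s hs => hms s hs)).compl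
    · exact hms s hs
  have hcount : (P.prod Measure.count) B = ∫⁻ ω, Measure.count (F ω) ∂P :=
    Measure.prod_apply hB
  have hae : ∀ᵐ ω ∂P, (F ω).Finite := by
    have h2 := ae_lt_top (μ := P) (measurable_measure_prodMk_left (ν := Measure.count) hB)
      (by rw [← hcount]; exact h1)
    filter_upwards [h2] with ω hω
    exact Measure.count_apply_lt_top.mp hω
  have hstep : ∀ᵐ ω ∂P, fs (S ω) = (fs ω).image (fun g => g * ψ ω) := by
    filter_upwards [hae, hS.toMeasurePreserving.quasiMeasurePreserving.ae hae, hinv]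
      with ω h2 h3 h4
    apply Finset.coe_injective
    rw [Finset.coe_image, hfin _ h3, hfin _ h2]
    ext g
    constructor
    · intro hg
      refine ⟨g * (ψ ω)⁻¹, (h4 _).mpr ?_, by simp⟩
      rw [inv_mul_cancel_right]
      exact hg
    · rintro ⟨g', hg', rfl⟩
      exact (h4 g').mp hg'
  have hinj : ∀ ω, Function.Injective (fun g : G => g * ψ ω) := fun ω => mul_left_injective _
  have hcard : ∀ᵐ ω ∂P, (fs (S ω)).card = (fs ω).card := by
    filter_upwards [hstep] with ω h2
    rw [h2, Finset.card_image_of_injective _ (hinj ω)]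
  obtain ⟨f, hf⟩ := const_of_ergodic P S hS (fun ω => (fs ω).card)
    (CB_aux_meas fs hm (fun s => s.card)) hcard
  refine ⟨f, ?_, fun ω => ∏ g ∈ fs ω, g, CB_aux_meas fs hm (fun s => ∏ g ∈ s, g), ?_⟩
  · rcases Nat.eq_zero_or_pos f with h | h
    · exfalso
      apply h0
      rw [hcount, lintegral_eq_zero_iff (measurable_measure_prodMk_left hB)]
      filter_upwards [hf, hae] with ω h2 h3
      rw [h, Finset.card_eq_zero] at h2
      have h4 := hfin ω h3
      rw [h2, Finset.coe_empty] at h4
      show Measure.count (F ω) = 0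
      rw [← h4, measure_empty]
    · exact h
  · filter_upwards [hstep, hf] with ω h2 h3
    rw [h2, Finset.prod_image (fun a _ b _ hab => hinj ω hab), Finset.prod_mul_distrib,
      Finset.prod_const, h3]

end H567MM.P
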