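import Pool.Agent.H567R2.MM.Stubs

/-! CL: collisions (helper64) -/

namespace H567MM.P

open MeasureTheory Filter Topology

/-- a map to a countable set takes its values in a finite set, outside a small set -/
theorem CL_aux_finset {X G : Type*} [MeasurableSpace X] (μ : Measure X)
    [IsProbabilityMeasure μ] [Countable G] (v : X → G)
    (hv : ∀ g : G, MeasurableSet {x | v x = g}) (ε : ℝ) (hε : 0 < ε) :
    ∃ Φ : Finset G, μ.real {x | v x ∉ Φ} < ε := by
  classical
  have hU : (⋃ g : G, {x | v x = g}) = Set.univ := by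
    ext x
    simp
  have hdis : Pairwise (Function.onFun Disjoint fun g : G => {x | v x = g}) := by
    intro g g' hne
    rw [Function.onFun, Set.disjoint_left]
    intro x hx hx'
    exact hne (hx.symm.trans hx')
  have h1 : ∑' g : G, μ {x | v x = g} = 1 := by
    rw [← measure_iUnion hdis hv, hU, measure_univ]
  have h2 : Tendsto (fun Φ : Finset G => ∑ g ∈ Φ, μ {x | v x = g}) atTop (𝓝 1) := by
    rw [← h1]
    exact ENNReal.summable.hasSum
  have h3 : ∀ Φ : Finset G, μ {x | v x ∈ Φ} = ∑ g ∈ Φ, μ {x | v x = g} := by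
    intro Φ
    have : {x | v x ∈ Φ} = ⋃ g ∈ Φ, {x | v x = g} := by
      ext x
      simp
    rw [this, measure_biUnion_finset (fun g _ g' _ hne => hdis hne) (fun g _ => hv g)]
  have h4 : ∀ᶠ Φ : Finset G in atTop, ENNReal.ofReal (1 - ε) < ∑ g ∈ Φ, μ {x | v x = g} := by
    apply h2.eventually_const_lt
    rw [← ENNReal.ofReal_one]
    exact (ENNReal.ofReal_lt_ofReal_iff (by norm_num)).2 (by linarith)
  obtain ⟨Φ, hΦ⟩ := h4.exists
  refine ⟨Φ, ?_⟩
  rw [← h3] at hΦ
  have hm : MeasurableSet {x | v x ∈ Φ} := by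
    have : {x | v x ∈ Φ} = ⋃ g ∈ Φ, {x | v x = g} := by
      ext x
      simp
    rw [this]
    exact Finset.measurableSet_biUnion _ fun g _ => hv g
  have h5 : {x | v x ∉ Φ} = {x | v x ∈ Φ}ᶜ := rfl
  rw [h5, probReal_compl_eq_one_sub hm]
  have h6 : 1 - ε < μ.real {x | v x ∈ Φ} := by
    by_contra hcon
    push Not at hcon
    have : μ {x | v x ∈ Φ} ≤ ENNReal.ofReal (1 - ε) := by
      rw [← ofReal_measureReal (measure_ne_top μ _)]
      exact ENNReal.ofReal_le_ofReal hcon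
    exact absurd hΦ (not_lt.2 this)
  linarith

theorem collision_limit {X G : Type*} [MeasurableSpace X] (μ : Measure X)
    [IsProbabilityMeasure μ] (S : X → X) (hS : MeasurePreserving S μ μ) (hmix : MixOrd μ S 1)
    [Countable G] (v : X → G) (hv : ∀ g : G, MeasurableSet {x | v x = g}) (ε : ℝ) (hε : 0 < ε) :
    ∃ N : ℕ, ∀ n : ℕ, N ≤ n →
      μ.real {x | v x = v (S^[n] x)} < (μ.prod μ).real {z | v z.1 = v z.2} + ε := by
  classical
  obtain ⟨Φ, hΦ⟩ := CL_aux_finset μ v hv (ε / 2) (by linarith)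
  set δ : ℝ := ε / (2 * ((Φ.card : ℝ) + 1)) with hδ
  have hδ0 : 0 < δ := by positivity
  have hmix' : ∀ g : G, ∃ N : ℕ, ∀ n : ℕ, N ≤ n →
      μ.real ({x | v x = g} ∩ S^[n] ⁻¹' {x | v x = g}) < μ.real {x | v x = g} ^ 2 + δ := by
    intro g
    obtain ⟨N, hN⟩ := hmix (fun _ => {x | v x = g}) (fun _ => hv g) δ hδ0
    refine ⟨N, fun n hn => ?_⟩
    have h1 := hN ![0, n] rfl (by
      intro j
      fin_cases j
      simpa using hn)
    have h2 : (⋂ j : Fin (1 + 1), S^[(![0, n] : Fin 2 → ℕ) j] ⁻¹' {x | v x = g}) =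
        {x | v x = g} ∩ S^[n] ⁻¹' {x | v x = g} := by
      ext x
      simp [Fin.forall_fin_two]
    rw [h2] at h1
    have h3 : ∏ _j : Fin (1 + 1), μ.real {x | v x = g} = μ.real {x | v x = g} ^ 2 := by
      simp
    rw [h3] at h1
    have := (abs_lt.1 h1).2
    linarith
  choose N hN using hmix'
  refine ⟨Φ.sup N, fun n hn => ?_⟩
  have hsub : {x | v x = v (S^[n] x)} ⊆ {x | v x ∉ Φ} ∪
      ⋃ g ∈ Φ, ({x | v x = g} ∩ S^[n] ⁻¹' {x | v x = g}) := by
    intro x hx
    by_cases h : v x ∈ Φ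
    · right
      rw [Set.mem_iUnion₂]
      exact ⟨v x, h, rfl, hx.symm⟩
    · exact Or.inl h
  have h1 : μ.real {x | v x = v (S^[n] x)} ≤ μ.real {x | v x ∉ Φ} +
      ∑ g ∈ Φ, μ.real ({x | v x = g} ∩ S^[n] ⁻¹' {x | v x = g}) :=
    (measureReal_mono hsub).trans ((measureReal_union_le _ _).trans
      (add_le_add le_rfl (measureReal_biUnion_finset_le _ _)))
  have h2 : ∑ g ∈ Φ, μ.real ({x | v x = g} ∩ S^[n] ⁻¹' {x | v x = g}) ≤
      ∑ g ∈ Φ, (μ.real {x | v x = g} ^ 2 + δ) :=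
    Finset.sum_le_sum fun g hg => (hN g n ((Finset.le_sup hg).trans hn)).le
  rw [Finset.sum_add_distrib, Finset.sum_const, nsmul_eq_mul] at h2
  have h3 : ∑ g ∈ Φ, μ.real {x | v x = g} ^ 2 ≤ (μ.prod μ).real {z | v z.1 = v z.2} := by
    have e1 : ∀ g ∈ Φ, μ.real {x | v x = g} ^ 2 =
        (μ.prod μ).real ({x | v x = g} ×ˢ {x | v x = g}) := by
      intro g _
      unfold Measure.real
      rw [Measure.prod_prod, ENNReal.toReal_mul, sq]
    rw [Finset.sum_congr rfl e1, ← measureReal_biUnion_finset]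
    · refine measureReal_mono ?_ (measure_ne_top _ _)
      intro z hz
      rw [Set.mem_iUnion₂] at hz
      obtain ⟨g, _, h1, h2⟩ := hz
      exact h1.trans h2.symm
    · intro g _ g' _ hne
      rw [Function.onFun, Set.disjoint_left]
      intro z hz hz'
      exact hne (hz.1.symm.trans hz'.1)
    · intro g _
      exact (hv g).prod (hv g)
  have h4 : (Φ.card : ℝ) * δ < ε / 2 := by
    rw [hδ, ← mul_div_assoc, div_lt_div_iff₀ (by positivity) (by norm_num)]
    nlinarith
  linarith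

end H567MM.P
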