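import Mathlib

/-!
Multiple mixing of skew products with algebraic fibre maps: definitions.
-/

namespace H567MM

open MeasureTheory

noncomputable section

/-- `T` is mixing of multiplicity `k` with respect to `μ`: for all measurable `A 0, ..., A k`,
`μ (A 0 ∩ T^{-n 1} (A 1) ∩ ... ∩ T^{-n k} (A k))` tends to `μ (A 0) ... μ (A k)` as all
the gaps between `0 = n 0, n 1, ..., n k` tend to infinity. -/
def MixOrd {X : Type*} [MeasurableSpace X] (μ : Measure X) (T : X → X) (k : ℕ) : Prop :=
  ∀ A : Fin (k + 1) → Set X, (∀ j, MeasurableSet (A j)) → ∀ ε : ℝ, 0 < ε → ∃ G : ℕ,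
    ∀ n : Fin (k + 1) → ℕ, n 0 = 0 → (∀ j : Fin k, n j.castSucc + G ≤ n j.succ) →
      |μ.real (⋂ j, T^[n j] ⁻¹' A j) - ∏ j, μ.real (A j)| < ε

/-- the dual group of the discrete group `M`, the group of all characters of `M` -/
abbrev Dual (M : Type*) [AddCommGroup M] : Type _ := AddChar M Circle

/-- its Borel sets (for countable `M`): the σ-algebra generated by the evaluations -/
instance Dual.instMeasurableSpace (M : Type*) [AddCommGroup M] : MeasurableSpace (Dual M) :=
  MeasurableSpace.comap (fun (y : Dual M) (m : M) => (y m : ℂ)) MeasurableSpace.pi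

/-- the automorphism of the dual group of the `R`-module `M` dual to the multiplication by the
unit `r`: `(act r y) m = y (r m)` -/
def act {R M : Type*} [CommRing R] [AddCommGroup M] [Module R M] (r : Rˣ) (y : Dual M) :
    Dual M := y.compAddMonoidHom (DistribSMul.toAddMonoidHom M (r : R))

/-- the skew product `(x, y) ↦ (S x, φ(x) y)` -/
def skew {X R M : Type*} [CommRing R] [AddCommGroup M] [Module R M] (S : X → X) (φ : X → Rˣ)
    (z : X × Dual M) : X × Dual M := (S z.1, act (φ z.1) z.2)

/-- `ν` is the Haar probability measure of the dual group -/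
def IsHaarProb {M : Type*} [AddCommGroup M] (ν : Measure (Dual M)) : Prop :=
  IsProbabilityMeasure ν ∧ ∀ z : Dual M, MeasurePreserving (fun y => z * y) ν ν

/-- the products `φ(x) φ(S x) ... φ(S^{n-1} x)` -/
def coc {X G : Type*} [Monoid G] (S : X → X) (φ : X → G) : ℕ → X → G
  | 0, _ => 1
  | n + 1, x => coc S φ n x * φ (S^[n] x)

/-- the product `coc` for a map to the units of a ring, as an element of the ring -/
def cv {X R : Type*} [Monoid R] (S : X → X) (φ : X → Rˣ) (n : ℕ) (x : X) : R :=
  ((coc S φ n x : Rˣ) : R)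

/-- the expression which appears in the elimination -/
def br {X R : Type*} [CommRing R] (S : X → X) (φ : X → Rˣ) (t t' : ℕ) (a b : X) : R :=
  cv S φ t a * cv S φ t' b - cv S φ t' a * cv S φ t b

/-- all gaps of the sequence are at least `G` -/
def Gaps {s : ℕ} (G : ℕ) (n : Fin s → ℕ) : Prop := ∀ i j : Fin s, i < j → n i + G ≤ n j

end

end H567MM
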