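import Pool.Agent.H567R2.MM.Stubs

/-!
Task FA: finite combinations of the tensor functions are dense.
-/

namespace H567MM.P

open MeasureTheory Filter Topology

section aux

variable {X M : Type*} [MeasurableSpace X] [AddCommGroup M]

theorem FA_meas_eval (m : M) : Measurable (fun y : Dual M => ((y m : Circle) : ℂ)) :=
  (measurable_pi_apply m).comp (comap_measurable (fun (y : Dual M) (m : M) => (y m : ℂ)))

theorem FA_meas_ten {A : Set X} (hA : MeasurableSet A) (m : M) :
    Measurable (ten (X := X) (M := M) A m) := by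
  unfold ten
  exact ((measurable_const.indicator hA).comp measurable_fst).mul
    ((FA_meas_eval m).comp measurable_snd)

theorem FA_norm_ten (A : Set X) (m : M) (z : X × Dual M) : ‖ten A m z‖ ≤ 1 := by
  unfold ten
  rw [norm_mul, Circle.norm_coe, mul_one]
  by_cases h : z.1 ∈ A
  · simp [h]
  · simp [h]

/-- the span of the tensor functions -/
def FA_E (X M : Type*) [MeasurableSpace X] [AddCommGroup M] : Submodule ℂ (X × Dual M → ℂ) :=
  Submodule.span ℂ {g | ∃ (A : Set X) (m : M), MeasurableSet A ∧ g = ten A m}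

theorem FA_E_int (μ : Measure (X × Dual M)) [IsProbabilityMeasure μ] {g : X × Dual M → ℂ}
    (hg : g ∈ FA_E X M) : Integrable g μ := by
  refine Submodule.span_induction ?_ ?_ ?_ ?_ hg
  · rintro _ ⟨A, m, hA, rfl⟩
    refine Integrable.of_bound (FA_meas_ten hA m).aestronglyMeasurable 1 ?_
    exact Eventually.of_forall (FA_norm_ten A m)
  · exact integrable_zero _ _ _
  · intro f h _ _ hf hh; exact hf.add hh
  · intro c f _ hf; exact hf.smul c

/-- approximable functions -/
def FA_Ap (μ : Measure (X × Dual M)) (g : X × Dual M → ℂ) : Prop :=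
  ∀ ε : ℝ, 0 < ε → ∃ f ∈ FA_E X M, ∫ z, ‖g z - f z‖ ∂μ < ε

theorem FA_Ap_lim (μ : Measure (X × Dual M)) [IsProbabilityMeasure μ] {g : X × Dual M → ℂ}
    (hg : Integrable g μ) (h : ∀ ε : ℝ, 0 < ε → ∃ g', Integrable g' μ ∧ FA_Ap μ g' ∧
      ∫ z, ‖g z - g' z‖ ∂μ < ε) : FA_Ap μ g := by
  intro ε hε
  obtain ⟨g', hg', hA, h1⟩ := h (ε / 2) (by linarith)
  obtain ⟨f, hf, h2⟩ := hA (ε / 2) (by linarith)
  refine ⟨f, hf, ?_⟩
  have hfi := FA_E_int μ hf
  calc ∫ z, ‖g z - f z‖ ∂μ ≤ ∫ z, (‖g z - g' z‖ + ‖g' z - f z‖) ∂μ := by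
        refine integral_mono (hg.sub hfi).norm ((hg.sub hg').norm.add (hg'.sub hfi).norm) ?_
        intro z
        exact norm_sub_le_norm_sub_add_norm_sub _ _ _
    _ = ∫ z, ‖g z - g' z‖ ∂μ + ∫ z, ‖g' z - f z‖ ∂μ :=
        integral_add (hg.sub hg').norm (hg'.sub hfi).norm
    _ < ε := by linarith

theorem FA_Ap_add (μ : Measure (X × Dual M)) [IsProbabilityMeasure μ] {g h : X × Dual M → ℂ}
    (hg : Integrable g μ) (hh : Integrable h μ) (ag : FA_Ap μ g) (ah : FA_Ap μ h) :
    FA_Ap μ (fun z => g z + h z) := by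
  intro ε hε
  obtain ⟨f, hf, h1⟩ := ag (ε / 2) (by linarith)
  obtain ⟨f', hf', h2⟩ := ah (ε / 2) (by linarith)
  refine ⟨f + f', (FA_E X M).add_mem hf hf', ?_⟩
  have hfi := FA_E_int μ hf
  have hfi' := FA_E_int μ hf'
  calc ∫ z, ‖(g z + h z) - (f + f') z‖ ∂μ ≤ ∫ z, (‖g z - f z‖ + ‖h z - f' z‖) ∂μ := by
        refine integral_mono ((hg.add hh).sub (hfi.add hfi')).norm
          ((hg.sub hfi).norm.add (hh.sub hfi').norm) ?_
        intro z
        have : (g z + h z) - (f + f') z = (g z - f z) + (h z - f' z) := by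
          simp only [Pi.add_apply]; ring
        simp only [this]
        exact norm_add_le _ _
    _ = ∫ z, ‖g z - f z‖ ∂μ + ∫ z, ‖h z - f' z‖ ∂μ :=
        integral_add (hg.sub hfi).norm (hh.sub hfi').norm
    _ < ε := by linarith

theorem FA_ind_int (μ : Measure (X × Dual M)) [IsProbabilityMeasure μ] {B : Set (X × Dual M)}
    (hB : MeasurableSet B) : Integrable (B.indicator (fun _ => (1 : ℂ))) μ :=
  (integrable_const (1 : ℂ)).indicator hB

theorem FA_Ap_sum (μ : Measure (X × Dual M)) [IsProbabilityMeasure μ]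
    (B : ℕ → Set (X × Dual M)) (hB : ∀ i, MeasurableSet (B i))
    (h : ∀ i, FA_Ap μ ((B i).indicator (fun _ => (1 : ℂ)))) (n : ℕ) :
    Integrable (fun z => ∑ i ∈ Finset.range n, (B i).indicator (fun _ => (1 : ℂ)) z) μ ∧
    FA_Ap μ (fun z => ∑ i ∈ Finset.range n, (B i).indicator (fun _ => (1 : ℂ)) z) := by
  induction n with
  | zero =>
    refine ⟨by simpa using integrable_zero _ _ _, ?_⟩
    intro ε hε
    refine ⟨0, (FA_E X M).zero_mem, ?_⟩
    simpa using hε
  | succ n ih =>
    simp only [Finset.sum_range_succ]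
    exact ⟨ih.1.add (FA_ind_int μ (hB n)),
      FA_Ap_add μ ih.1 (FA_ind_int μ (hB n)) ih.2 (h n)⟩

end aux

theorem FA_aux {X M : Type*} [MeasurableSpace X] (μ : Measure X) [IsProbabilityMeasure μ]
    [AddCommGroup M] [Countable M] (ν : Measure (Dual M)) [IsProbabilityMeasure ν]
    (B : Set (X × Dual M)) (hB : MeasurableSet B) :
    FA_Ap (μ.prod ν) (B.indicator (fun _ => (1 : ℂ))) := by
  refine MeasurableSpace.induction_on_inter
    (C := fun B _ => FA_Ap (μ.prod ν) (B.indicator (fun _ => (1 : ℂ))))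
    generateFrom_prod.symm isPiSystem_prod ?_ ?_ ?_ ?_ B hB
  · intro ε hε
    refine ⟨0, (FA_E X M).zero_mem, ?_⟩
    simpa using hε
  · rintro _ ⟨A, hA, C, hC, rfl⟩ ε hε
    simp only [Set.mem_setOf_eq] at hA hC
    obtain ⟨N, c, m, h⟩ := trig_dense ν C hC ε hε
    refine ⟨∑ l, c l • ten A (m l), ?_, ?_⟩
    · refine Submodule.sum_mem _ (fun l _ => Submodule.smul_mem _ _ (Submodule.subset_span ?_))
      exact ⟨A, m l, hA, rfl⟩
    · have hmeas : Measurable (fun y : Dual M =>
          ‖C.indicator (fun _ => (1 : ℂ)) y - ∑ l, c l * ((y (m l) : Circle) : ℂ)‖) := by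
        refine (Measurable.sub (measurable_const.indicator hC) ?_).norm
        exact Finset.measurable_sum _ (fun l _ => (FA_meas_eval (m l)).const_mul _)
      have hint : Integrable (fun y : Dual M =>
          ‖C.indicator (fun _ => (1 : ℂ)) y - ∑ l, c l * ((y (m l) : Circle) : ℂ)‖) ν := by
        refine Integrable.of_bound hmeas.aestronglyMeasurable (1 + ∑ l, ‖c l‖) ?_
        refine Eventually.of_forall fun y => ?_
        rw [norm_norm]
        refine (norm_sub_le _ _).trans (add_le_add ?_ ?_)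
        · by_cases hy : y ∈ C <;> simp [hy]
        · refine (norm_sum_le _ _).trans (Finset.sum_le_sum fun l _ => ?_)
          rw [norm_mul, Circle.norm_coe, mul_one]
      have hsnd : MeasurePreserving (Prod.snd : X × Dual M → Dual M) (μ.prod ν) ν :=
        measurePreserving_snd
      have hint2 : Integrable (fun z : X × Dual M =>
          ‖C.indicator (fun _ => (1 : ℂ)) z.2 - ∑ l, c l * ((z.2 (m l) : Circle) : ℂ)‖)
          (μ.prod ν) := hsnd.integrable_comp_of_integrable hint
      have heq : ∫ z : X × Dual M,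
          ‖C.indicator (fun _ => (1 : ℂ)) z.2 - ∑ l, c l * ((z.2 (m l) : Circle) : ℂ)‖
          ∂(μ.prod ν) = ∫ y, ‖C.indicator (fun _ => (1 : ℂ)) y -
            ∑ l, c l * ((y (m l) : Circle) : ℂ)‖ ∂ν := by
        rw [← hsnd.map_eq, integral_map hsnd.measurable.aemeasurable
          (hsnd.map_eq ▸ hmeas.aestronglyMeasurable), hsnd.map_eq]
      refine lt_of_le_of_lt ?_ h
      rw [← heq]
      refine integral_mono_of_nonneg (Eventually.of_forall fun z => norm_nonneg _) hint2 ?_
      refine Eventually.of_forall fun z => ?_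
      have e1 : (A ×ˢ C).indicator (fun _ => (1 : ℂ)) z =
          A.indicator (fun _ => (1 : ℂ)) z.1 * C.indicator (fun _ => (1 : ℂ)) z.2 := by
        by_cases h1 : z.1 ∈ A <;> by_cases h2 : z.2 ∈ C <;> simp [Set.indicator, h1, h2]
      have e2 : (∑ l, c l • ten A (m l)) z = A.indicator (fun _ => (1 : ℂ)) z.1 *
          ∑ l, c l * ((z.2 (m l) : Circle) : ℂ) := by
        rw [Finset.sum_apply, Finset.mul_sum]
        refine Finset.sum_congr rfl fun l _ => ?_
        simp only [Pi.smul_apply, smul_eq_mul, ten]; ring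
      simp only []
      rw [e1, e2, ← mul_sub, norm_mul]
      refine mul_le_of_le_one_left (norm_nonneg _) ?_
      by_cases h1 : z.1 ∈ A <;> simp [h1]
  · intro t ht hA ε hε
    obtain ⟨f, hf, h⟩ := hA ε hε
    have hone : (ten Set.univ (0 : M) : X × Dual M → ℂ) ∈ FA_E X M :=
      Submodule.subset_span ⟨Set.univ, 0, MeasurableSet.univ, rfl⟩
    refine ⟨ten Set.univ (0 : M) - f, (FA_E X M).sub_mem hone hf, ?_⟩
    refine lt_of_le_of_lt (le_of_eq ?_) h
    refine integral_congr_ae (Eventually.of_forall fun z => ?_)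
    have e1 : (ten Set.univ (0 : M) : X × Dual M → ℂ) z = 1 := by
      simp [ten]
    have e2 : tᶜ.indicator (fun _ => (1 : ℂ)) z -
        ((ten Set.univ (0 : M) : X × Dual M → ℂ) - f) z =
        -(t.indicator (fun _ => (1 : ℂ)) z - f z) := by
      rw [Pi.sub_apply, e1]
      by_cases hz : z ∈ t <;> simp [hz]
    simp only []
    rw [e2, norm_neg]
  · intro D hdisj hD hA
    refine FA_Ap_lim _ (FA_ind_int _ (MeasurableSet.iUnion hD)) ?_
    intro ε hε
    have ht := tendsto_measure_biUnion_Ici_zero_of_pairwise_disjoint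
      (μ := μ.prod ν) (fun i => (hD i).nullMeasurableSet) hdisj
    have ht2 : ∀ᶠ n in atTop, (μ.prod ν) (⋃ i ≥ n, D i) < ENNReal.ofReal ε :=
      ht.eventually (gt_mem_nhds (ENNReal.ofReal_pos.mpr hε))
    obtain ⟨n, hn⟩ := ht2.exists
    obtain ⟨i1, i2⟩ := FA_Ap_sum (μ.prod ν) D hD hA n
    refine ⟨_, i1, i2, ?_⟩
    have hmeas : MeasurableSet (⋃ i ≥ n, D i) :=
      MeasurableSet.iUnion fun i => MeasurableSet.iUnion fun _ => hD i
    have hle : ∫ z, ‖(⋃ i, D i).indicator (fun _ => (1 : ℂ)) z -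
        ∑ i ∈ Finset.range n, (D i).indicator (fun _ => (1 : ℂ)) z‖ ∂(μ.prod ν) ≤
        ∫ z, (⋃ i ≥ n, D i).indicator (fun _ => (1 : ℝ)) z ∂(μ.prod ν) := by
      refine integral_mono_of_nonneg (Eventually.of_forall fun z => norm_nonneg _)
        ((integrable_const (1 : ℝ)).indicator hmeas) ?_
      refine Eventually.of_forall fun z => ?_
      simp only []
      by_cases hz : z ∈ ⋃ i, D i
      · obtain ⟨j, hj⟩ := Set.mem_iUnion.mp hz
        have huniq : ∀ i, i ≠ j → z ∉ D i := fun i hij hi =>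
          Set.disjoint_left.mp (hdisj hij) hi hj
        by_cases hjn : j < n
        · have hs : ∑ i ∈ Finset.range n, (D i).indicator (fun _ => (1 : ℂ)) z = 1 := by
            rw [Finset.sum_eq_single j]
            · simp [hj]
            · intro i _ hij; simp [huniq i hij]
            · intro hj'; exact absurd (Finset.mem_range.mpr hjn) hj'
          rw [hs]
          simp only [Set.indicator_of_mem hz, sub_self, norm_zero]
          exact Set.indicator_nonneg (fun _ _ => zero_le_one) _
        · have hs : ∑ i ∈ Finset.range n, (D i).indicator (fun _ => (1 : ℂ)) z = 0 := by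
            refine Finset.sum_eq_zero fun i hi => ?_
            have : i ≠ j := by rintro rfl; exact hjn (Finset.mem_range.mp hi)
            simp [huniq i this]
          have hz2 : z ∈ ⋃ i ≥ n, D i :=
            Set.mem_iUnion₂.mpr ⟨j, not_lt.mp hjn, hj⟩
          rw [hs, Set.indicator_of_mem hz, Set.indicator_of_mem hz2]
          simp
      · have hs : ∑ i ∈ Finset.range n, (D i).indicator (fun _ => (1 : ℂ)) z = 0 := by
          refine Finset.sum_eq_zero fun i _ => ?_
          have : z ∉ D i := fun h => hz (Set.mem_iUnion.mpr ⟨i, h⟩)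
          simp [this]
        rw [hs, Set.indicator_of_notMem hz, sub_zero, norm_zero]
        exact Set.indicator_nonneg (fun _ _ => zero_le_one) _
    refine lt_of_le_of_lt hle ?_
    rw [integral_indicator hmeas]
    simp only [integral_const, smul_eq_mul, mul_one, Measure.real, MeasurableSet.univ,
      Measure.restrict_apply, Set.univ_inter]
    exact (ENNReal.toReal_lt_toReal (measure_ne_top _ _) ENNReal.ofReal_ne_top).mpr hn |>.trans_eq
      (ENNReal.toReal_ofReal hε.le)

theorem ten_dense {X M : Type*} [MeasurableSpace X] (μ : Measure X) [IsProbabilityMeasure μ]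
    [AddCommGroup M] [Countable M] (ν : Measure (Dual M)) [IsProbabilityMeasure ν]
    (B : Set (X × Dual M)) (hB : MeasurableSet B) (ε : ℝ) (hε : 0 < ε) :
    ∃ (N : ℕ) (c : Fin N → ℂ) (A : Fin N → Set X) (m : Fin N → M), (∀ l, MeasurableSet (A l)) ∧
      ∫ z, ‖B.indicator (fun _ => (1 : ℂ)) z - ∑ l, c l * ten (A l) (m l) z‖ ∂(μ.prod ν) < ε := by
  obtain ⟨f, hf, h⟩ := FA_aux μ ν B hB ε hε
  obtain ⟨N, c, g, hg⟩ := Submodule.mem_span_set'.mp hf
  choose A m hA hAm using fun l => (g l).2
  refine ⟨N, c, A, m, hA, ?_⟩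
  refine lt_of_le_of_lt (le_of_eq ?_) h
  refine integral_congr_ae (Eventually.of_forall fun z => ?_)
  have : f z = ∑ l, c l * ten (A l) (m l) z := by
    rw [← hg, Finset.sum_apply]
    refine Finset.sum_congr rfl fun l _ => ?_
    rw [Pi.smul_apply, hAm l, smul_eq_mul]
  simp only [this]

end H567MM.P
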