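import Pool.Agent.H567R2.MM.Stubs

/-! Task FT: trigonometric polynomials are dense in `L¹`. -/

namespace H567MM.P

open MeasureTheory Filter Topology

/-- the big compact space -/
abbrev FT_Z (M : Type*) : Type _ := M → Metric.sphere (0 : ℂ) 1

/-- the evaluation map -/
noncomputable def FT_ev {M : Type*} [AddCommGroup M] (y : Dual M) : FT_Z M :=
  fun m => ⟨((y m : Circle) : ℂ), by
    rw [mem_sphere_zero_iff_norm]
    exact Circle.norm_coe _⟩

/-- the character as a function on the dual group -/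
noncomputable def FT_ch {M : Type*} [AddCommGroup M] (m : M) : Dual M → ℂ :=
  fun y => ((y m : Circle) : ℂ)

/-- trigonometric polynomials -/
noncomputable def FT_TP (M : Type*) [AddCommGroup M] : Submodule ℂ (Dual M → ℂ) :=
  Submodule.span ℂ (Set.range FT_ch)

theorem FT_mul {M : Type*} [AddCommGroup M] {f g : Dual M → ℂ} (hf : f ∈ FT_TP M)
    (hg : g ∈ FT_TP M) : f * g ∈ FT_TP M := by
  have h1 : f * g ∈ Submodule.span ℂ (Set.range (FT_ch (M := M))) *
      Submodule.span ℂ (Set.range (FT_ch (M := M))) := Submodule.mul_mem_mul hf hg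
  rw [Submodule.span_mul_span] at h1
  refine Submodule.span_mono ?_ h1
  rintro _ ⟨_, ⟨m, rfl⟩, _, ⟨m', rfl⟩, rfl⟩
  refine ⟨m + m', ?_⟩
  funext y
  simp [FT_ch, AddChar.map_add_eq_mul]

theorem FT_one {M : Type*} [AddCommGroup M] : (1 : Dual M → ℂ) ∈ FT_TP M := by
  refine Submodule.subset_span ⟨0, ?_⟩
  funext y
  simp [FT_ch]

theorem FT_star {M : Type*} [AddCommGroup M] {f : Dual M → ℂ} (hf : f ∈ FT_TP M) :
    star f ∈ FT_TP M := by
  unfold FT_TP at hf ⊢
  induction hf using Submodule.span_induction with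
  | mem x hx =>
    obtain ⟨m, rfl⟩ := hx
    refine Submodule.subset_span ⟨-m, ?_⟩
    funext y
    simp only [FT_ch, Pi.star_apply, AddChar.map_neg_eq_inv, Circle.coe_inv_eq_conj]
    rfl
  | zero => simp
  | add x y _ _ hx hy =>
    rw [star_add]
    exact Submodule.add_mem _ hx hy
  | smul c x _ hx =>
    rw [star_smul]
    exact Submodule.smul_mem _ _ hx

/-- continuous functions on the compact space which are trigonometric polynomials on the dual
group -/
noncomputable def FT_A (M : Type*) [AddCommGroup M] : StarSubalgebra ℂ C(FT_Z M, ℂ) where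
  carrier := {h | (fun y : Dual M => h (FT_ev y)) ∈ FT_TP M}
  mul_mem' := fun {a b} ha hb => FT_mul (f := fun y : Dual M => a (FT_ev y))
    (g := fun y : Dual M => b (FT_ev y)) ha hb
  add_mem' := fun {a b} ha hb => Submodule.add_mem (FT_TP M) ha hb
  algebraMap_mem' := by
    intro c
    have h1 : (fun y : Dual M => (algebraMap ℂ C(FT_Z M, ℂ) c) (FT_ev y)) =
        c • (1 : Dual M → ℂ) := by
      funext y
      simp
    show (fun y : Dual M => (algebraMap ℂ C(FT_Z M, ℂ) c) (FT_ev y)) ∈ FT_TP M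
    rw [h1]
    exact Submodule.smul_mem _ _ FT_one
  star_mem' := fun {a} ha => FT_star (f := fun y : Dual M => a (FT_ev y)) ha

/-- the coordinate functions -/
noncomputable def FT_co {M : Type*} (m : M) : C(FT_Z M, ℂ) :=
  ⟨fun z => ((z m : Metric.sphere (0 : ℂ) 1) : ℂ), by fun_prop⟩

theorem FT_sep (M : Type*) [AddCommGroup M] : (FT_A M).SeparatesPoints := by
  intro z z' hz
  obtain ⟨m, hm⟩ := Function.ne_iff.1 hz
  refine ⟨FT_co m, ⟨FT_co m, ?_, rfl⟩, ?_⟩
  · exact Submodule.subset_span ⟨m, rfl⟩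
  · intro h
    exact hm (Subtype.ext h)

theorem FT_ev_meas {M : Type*} [AddCommGroup M] : Measurable (FT_ev (M := M)) := by
  rw [measurable_pi_iff]
  intro m
  refine Measurable.subtype_mk ?_
  have h1 : Measurable (fun (y : Dual M) (m : M) => (y m : ℂ)) := comap_measurable _
  exact (measurable_pi_iff.1 h1) m

theorem FT_set {M : Type*} [AddCommGroup M] {C : Set (Dual M)} (hC : MeasurableSet C) :
    ∃ C' : Set (FT_Z M), MeasurableSet C' ∧ FT_ev ⁻¹' C' = C := by
  obtain ⟨D, hD, hDC⟩ := hC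
  refine ⟨(fun (z : FT_Z M) (m : M) => ((z m : Metric.sphere (0 : ℂ) 1) : ℂ)) ⁻¹' D, ?_, ?_⟩
  · refine hD.preimage ?_
    rw [measurable_pi_iff]
    intro m
    exact measurable_subtype_coe.comp (measurable_pi_apply m)
  · rw [← hDC]
    rfl

theorem trig_dense {M : Type*} [AddCommGroup M] [Countable M] (ν : Measure (Dual M))
    [IsProbabilityMeasure ν] (C : Set (Dual M)) (hC : MeasurableSet C) (ε : ℝ) (hε : 0 < ε) :
    ∃ (N : ℕ) (c : Fin N → ℂ) (m : Fin N → M),
      ∫ y, ‖C.indicator (fun _ => (1 : ℂ)) y - ∑ l, c l * ((y (m l) : Circle) : ℂ)‖ ∂ν < ε := by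
  obtain ⟨C', hC', hCC'⟩ := FT_set hC
  set ν' : Measure (FT_Z M) := ν.map FT_ev with hν'
  have hprob : IsProbabilityMeasure ν' :=
    Measure.isProbabilityMeasure_map FT_ev_meas.aemeasurable
  have hint : Integrable (C'.indicator (fun _ => (1 : ℂ))) ν' :=
    (integrable_const (1 : ℂ)).indicator hC'
  obtain ⟨g, hg1, hg2⟩ := hint.exists_boundedContinuous_integral_sub_le
    (show (0 : ℝ) < ε / 4 by positivity)
  -- Stone-Weierstrass
  have hsw := ContinuousMap.starSubalgebra_topologicalClosure_eq_top_of_separatesPoints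
    (FT_A M) (FT_sep M)
  have hmem : g.toContinuousMap ∈ (FT_A M).topologicalClosure := by
    rw [hsw]; trivial
  have hmem' : g.toContinuousMap ∈ closure (FT_A M : Set C(FT_Z M, ℂ)) := hmem
  obtain ⟨h, hh, hgh⟩ := Metric.mem_closure_iff.1 hmem' (ε / 4) (by positivity)
  have hhy : (fun y : Dual M => h (FT_ev y)) ∈ FT_TP M := hh
  obtain ⟨c, hc⟩ := Finsupp.mem_span_range_iff_exists_finsupp.1 hhy
  refine ⟨c.support.card, fun l => c (c.support.equivFin.symm l),
    fun l => (c.support.equivFin.symm l : M), ?_⟩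
  have hsum : ∀ y : Dual M, ∑ l, c (c.support.equivFin.symm l) *
      ((y (c.support.equivFin.symm l : M) : Circle) : ℂ) = h (FT_ev y) := by
    intro y
    rw [Equiv.sum_comp c.support.equivFin.symm
      (fun i : c.support => c i * ((y (i : M) : Circle) : ℂ)),
      Finset.sum_coe_sort c.support (fun i => c i * ((y i : Circle) : ℂ))]
    have h1 := congrFun hc y
    rw [← h1, Finsupp.sum, Finset.sum_apply]
    rfl
  simp_rw [hsum]
  have hind : ∀ y : Dual M, C.indicator (fun _ => (1 : ℂ)) y =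
      C'.indicator (fun _ => (1 : ℂ)) (FT_ev y) := by
    intro y
    rw [← hCC']
    rfl
  simp_rw [hind]
  have hmeas : AEStronglyMeasurable (fun z => ‖C'.indicator (fun _ => (1 : ℂ)) z - h z‖)
      (ν.map FT_ev) :=
    (hint.aestronglyMeasurable.sub h.continuous.aestronglyMeasurable).norm
  rw [← integral_map (f := fun z => ‖C'.indicator (fun _ => (1 : ℂ)) z - h z‖)
    FT_ev_meas.aemeasurable hmeas, ← hν']
  have hgi : Integrable (fun z => ‖C'.indicator (fun _ => (1 : ℂ)) z - g z‖) ν' :=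
    (hint.sub hg2).norm
  calc ∫ z, ‖C'.indicator (fun _ => (1 : ℂ)) z - h z‖ ∂ν'
      ≤ ∫ z, (‖C'.indicator (fun _ => (1 : ℂ)) z - g z‖ + ε / 4) ∂ν' := by
        refine integral_mono_of_nonneg (Eventually.of_forall fun z => norm_nonneg _)
          (hgi.add (integrable_const _)) (Eventually.of_forall fun z => ?_)
        have h1 : ‖g z - h z‖ ≤ ε / 4 := by
          have h2 := ContinuousMap.dist_apply_le_dist (f := g.toContinuousMap) (g := h) z
          rw [dist_eq_norm] at h2
          exact h2.trans hgh.le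
        calc ‖C'.indicator (fun _ => (1 : ℂ)) z - h z‖
            = ‖(C'.indicator (fun _ => (1 : ℂ)) z - g z) + (g z - h z)‖ := by
              rw [sub_add_sub_cancel]
          _ ≤ ‖C'.indicator (fun _ => (1 : ℂ)) z - g z‖ + ‖g z - h z‖ := norm_add_le _ _
          _ ≤ ‖C'.indicator (fun _ => (1 : ℂ)) z - g z‖ + ε / 4 := by linarith
    _ = ∫ z, ‖C'.indicator (fun _ => (1 : ℂ)) z - g z‖ ∂ν' + ε / 4 := by
        rw [integral_add hgi (integrable_const _), integral_const]
        simp
    _ ≤ ε / 4 + ε / 4 := by linarith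
    _ < ε := by linarith

end H567MM.P
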