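import Pool.Agent.H567R2.MM.Stubs

namespace H567MM.P

open H567MM

/-- In characteristic `p`, a nonzero element that is algebraic over the prime field is a root of
unity. -/
theorem GA_aux_rootOfUnity {F K : Type*} [Field F] [Finite F] [Field K] [Algebra F K] (z : K)
    (hz : z ≠ 0) (halg : IsAlgebraic F z) : ∃ r : ℕ, 0 < r ∧ z ^ r = 1 := by
  haveI : FiniteDimensional F (IntermediateField.adjoin F {z}) :=
    IntermediateField.adjoin.finiteDimensional halg.isIntegral
  haveI : Finite (IntermediateField.adjoin F {z}) := Module.finite_of_finite F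
  let L := IntermediateField.adjoin F {z}
  let z0 : L := ⟨z, IntermediateField.mem_adjoin_simple_self F z⟩
  have hz0 : z0 ≠ 0 := by
    intro h
    apply hz
    have := congrArg Subtype.val h
    simpa [z0] using this
  haveI : Finite Lˣ := inferInstance
  obtain ⟨r, hr, h⟩ := isOfFinOrder_iff_pow_eq_one.1 (isOfFinOrder_of_finite (Units.mk0 z0 hz0))
  refine ⟨r, hr, ?_⟩
  have h1 : z0 ^ r = 1 := by
    have := congrArg Units.val h
    simpa using this
  have h2 := congrArg Subtype.val h1
  simpa [z0] using h2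

/-- Characteristic zero, algebraic case. -/
theorem GA_aux_alg {K : Type*} [Field K] [CharZero K] (z : K) (hz : z ≠ 0)
    (hr : ∀ r : ℕ, 0 < r → z ^ r ≠ 1) (halg : IsAlgebraic ℚ z) {s : ℕ} (c : Fin s → K)
    (hc : c ≠ 0) : ∃ G : ℕ, ∀ n : Fin s → ℕ, Gaps G n → ∑ i, c i * z ^ n i ≠ 0 := by
  haveI : FiniteDimensional ℚ (IntermediateField.adjoin ℚ {z}) :=
    IntermediateField.adjoin.finiteDimensional halg.isIntegral
  let L := IntermediateField.adjoin ℚ {z}
  haveI : NumberField L := { to_charZero := inferInstance, to_finiteDimensional := inferInstance }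
  let z0 : L := ⟨z, IntermediateField.mem_adjoin_simple_self ℚ z⟩
  have hzz : algebraMap L K z0 = z := rfl
  have hz0 : z0 ≠ 0 := by
    intro h
    apply hz
    rw [← hzz, h, map_zero]
  have hr0 : ∀ r : ℕ, 0 < r → z0 ^ r ≠ 1 := by
    intro r hr1 h
    apply hr r hr1
    rw [← hzz, ← map_pow, h, map_one]
  obtain ⟨i0, hi0⟩ : ∃ i, c i ≠ 0 := by
    by_contra hcon
    push Not at hcon
    exact hc (funext hcon)
  obtain ⟨f, hf⟩ : ∃ f : K →ₗ[L] L, f (c i0) ≠ 0 := by
    by_contra hcon
    push Not at hcon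
    exact hi0 ((Module.forall_dual_apply_eq_zero_iff L (c i0)).1 hcon)
  obtain ⟨G, hG⟩ := gap_numberField z0 hz0 hr0 (fun i => f (c i))
    (fun h => hf (congrFun h i0))
  refine ⟨G, fun n hn hsum => hG n hn ?_⟩
  have h1 := congrArg f hsum
  rw [map_sum, map_zero] at h1
  rw [← h1]
  refine Finset.sum_congr rfl fun i _ => ?_
  have h2 : c i * z ^ n i = (z0 ^ n i : L) • c i := by
    rw [Algebra.smul_def, map_pow, hzz, mul_comm]
  rw [h2, map_smul, smul_eq_mul, mul_comm]

/-- GA -/
theorem gap {K : Type*} [Field K] (z : K) (hz : z ≠ 0) (hr : ∀ r : ℕ, 0 < r → z ^ r ≠ 1)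
    {s : ℕ} (c : Fin s → K) (hc : c ≠ 0) :
    ∃ G : ℕ, ∀ n : Fin s → ℕ, Gaps G n → ∑ i, c i * z ^ n i ≠ 0 := by
  obtain ⟨p, hp⟩ := CharP.exists K
  rcases Nat.eq_zero_or_pos p with h0 | hpos
  · subst h0
    haveI : CharZero K := CharP.charP_to_charZero K
    by_cases halg : IsAlgebraic ℚ z
    · exact GA_aux_alg z hz hr halg c hc
    · exact gap_transcendental (F := ℚ) z halg c hc
  · haveI : Fact p.Prime := ⟨(CharP.char_is_prime_or_zero K p).resolve_right hpos.ne'⟩
    letI : Algebra (ZMod p) K := ZMod.algebra K p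
    by_cases halg : IsAlgebraic (ZMod p) z
    · obtain ⟨r, hr1, h⟩ := GA_aux_rootOfUnity z hz halg
      exact absurd h (hr r hr1)
    · exact gap_transcendental (F := ZMod p) z halg c hc

end H567MM.P
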