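import Pool.Agent.H567R2.MM.Stubs

/-! Task GN (helper702): the gap lemma in number fields. -/

set_option autoImplicit false

namespace H567MM.P

open H567MM

/-- a nonzero element which is not a root of unity has some absolute value different from one -/
theorem GN_aux_abv {L : Type*} [Field L] [NumberField L] (z : L)
    (hr : ∀ r : ℕ, 0 < r → z ^ r ≠ 1) : ∃ v : AbsoluteValue L ℝ, v z ≠ 1 := by
  by_contra hcon
  push Not at hcon
  have hint : IsIntegral ℤ z := by
    have hmem : z ∈ (algebraMap (NumberField.RingOfIntegers L) L).range := by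
      apply IsDedekindDomain.HeightOneSpectrum.mem_integers_of_valuation_le_one
      intro v
      have h1 := hcon (NumberField.HeightOneSpectrum.adicAbv L v)
      rw [NumberField.HeightOneSpectrum.adicAbv_def] at h1
      have h2 := WithZeroMulInt.toNNReal_strictMono
        (NumberField.HeightOneSpectrum.one_lt_absNorm_nnreal v)
      by_contra hlt
      rw [not_le] at hlt
      have h3 := h2 hlt
      rw [map_one] at h3
      have h4 : (1 : ℝ) < 1 := by
        calc (1:ℝ) < _ := by exact_mod_cast h3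
          _ = 1 := h1
      exact lt_irrefl _ h4
    obtain ⟨y, rfl⟩ := hmem
    exact y.2
  obtain ⟨n, hn, h⟩ := NumberField.Embeddings.pow_eq_one_of_norm_eq_one L ℂ hint (fun φ => by
    have := hcon (NumberField.place φ)
    rwa [NumberField.place_apply] at this)
  exact hr n hn h

/-- the gap lemma with an absolute value -/
theorem GN_aux_gap {L : Type*} [Field L] (v : AbsoluteValue L ℝ) (z : L) (hz : z ≠ 0)
    (hv : v z ≠ 1) {s : ℕ} (c : Fin s → L) (hc : c ≠ 0) :
    ∃ G : ℕ, ∀ n : Fin s → ℕ, Gaps G n → ∑ i, c i * z ^ n i ≠ 0 := by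
  classical
  have hzp : 0 < v z := v.pos hz
  set F : Finset (Fin s) := Finset.univ.filter (fun i => c i ≠ 0) with hF
  have hne : F.Nonempty := by
    obtain ⟨i, hi⟩ := Function.ne_iff.mp hc
    exact ⟨i, by simpa [hF] using hi⟩
  have hsum : ∀ n : Fin s → ℕ, ∀ i₀ ∈ F, ∑ i, c i * z ^ n i = 0 →
      v (c i₀) * v z ^ n i₀ ≤ ∑ i ∈ F.erase i₀, v (c i) * v z ^ n i := by
    intro n i₀ hi₀ h0
    have h1 : ∑ i, c i * z ^ n i = ∑ i ∈ F, c i * z ^ n i := by
      symm
      apply Finset.sum_subset (Finset.subset_univ F)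
      intro i _ hi
      have : c i = 0 := by
        by_contra hci
        exact hi (by simp [hF, hci])
      rw [this, zero_mul]
    rw [h1, ← Finset.add_sum_erase F _ hi₀] at h0
    have h2 : c i₀ * z ^ n i₀ = -∑ i ∈ F.erase i₀, c i * z ^ n i := by
      linear_combination h0
    calc v (c i₀) * v z ^ n i₀ = v (c i₀ * z ^ n i₀) := by rw [map_mul, map_pow]
      _ = v (∑ i ∈ F.erase i₀, c i * z ^ n i) := by rw [h2, AbsoluteValue.map_neg]
      _ ≤ ∑ i ∈ F.erase i₀, v (c i * z ^ n i) := AbsoluteValue.sum_le v _ _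
      _ = _ := by
        apply Finset.sum_congr rfl
        intro i _
        rw [map_mul, map_pow]
  set C : ℝ := ∑ i, v (c i) with hC
  have hC0 : 0 ≤ C := Finset.sum_nonneg (fun i _ => v.nonneg _)
  have hCs : ∀ i₀, ∑ i ∈ F.erase i₀, v (c i) ≤ C := by
    intro i₀
    exact Finset.sum_le_sum_of_subset_of_nonneg (Finset.subset_univ _) (fun i _ _ => v.nonneg _)
  rcases lt_or_gt_of_ne hv with hlt | hgt
  · -- `v z < 1`: the smallest index dominates
    set i₀ := F.min' hne with hi₀
    have hi₀F : i₀ ∈ F := Finset.min'_mem F hne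
    have hci : c i₀ ≠ 0 := by
      have := hi₀F
      simp only [hF, Finset.mem_filter, Finset.mem_univ, true_and] at this
      exact this
    have hcp : 0 < v (c i₀) := v.pos hci
    obtain ⟨G, hG⟩ := exists_pow_lt_of_lt_one (div_pos hcp (by linarith : 0 < C + 1)) hlt
    refine ⟨G, fun n hn h0 => ?_⟩
    have h1 := hsum n i₀ hi₀F h0
    have h2 : ∑ i ∈ F.erase i₀, v (c i) * v z ^ n i ≤ C * (v z ^ n i₀ * v z ^ G) := by
      calc _ ≤ ∑ i ∈ F.erase i₀, v (c i) * (v z ^ n i₀ * v z ^ G) := by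
            apply Finset.sum_le_sum
            intro i hi
            have hiF := Finset.mem_of_mem_erase hi
            have hlt' : i₀ < i := lt_of_le_of_ne (Finset.min'_le F i hiF) (Finset.ne_of_mem_erase hi).symm
            rw [← pow_add]
            apply mul_le_mul_of_nonneg_left _ (v.nonneg _)
            exact pow_le_pow_of_le_one hzp.le hlt.le (hn i₀ i hlt')
        _ = (∑ i ∈ F.erase i₀, v (c i)) * (v z ^ n i₀ * v z ^ G) := by rw [Finset.sum_mul]
        _ ≤ _ := mul_le_mul_of_nonneg_right (hCs i₀) (by positivity)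
    have hp : 0 < v z ^ n i₀ := pow_pos hzp _
    have h3 : v (c i₀) * v z ^ n i₀ ≤ (C * v z ^ G) * v z ^ n i₀ := by
      calc _ ≤ _ := h1.trans h2
        _ = _ := by ring
    have h4 := le_of_mul_le_mul_right h3 hp
    rw [lt_div_iff₀ (by linarith : 0 < C + 1)] at hG
    have h5 : 0 < v z ^ G := pow_pos hzp _
    nlinarith
  · -- `v z > 1`: the largest index dominates
    set i₀ := F.max' hne with hi₀
    have hi₀F : i₀ ∈ F := Finset.max'_mem F hne
    have hci : c i₀ ≠ 0 := by
      have := hi₀F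
      simp only [hF, Finset.mem_filter, Finset.mem_univ, true_and] at this
      exact this
    have hcp : 0 < v (c i₀) := v.pos hci
    obtain ⟨G, hG⟩ := pow_unbounded_of_one_lt ((C + 1) / v (c i₀)) hgt
    refine ⟨G, fun n hn h0 => ?_⟩
    have h1 := hsum n i₀ hi₀F h0
    have h2 : (∑ i ∈ F.erase i₀, v (c i) * v z ^ n i) * v z ^ G ≤ C * v z ^ n i₀ := by
      rw [Finset.sum_mul]
      calc _ ≤ ∑ i ∈ F.erase i₀, v (c i) * v z ^ n i₀ := by
            apply Finset.sum_le_sum
            intro i hi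
            have hiF := Finset.mem_of_mem_erase hi
            have hlt' : i < i₀ := lt_of_le_of_ne (Finset.le_max' F i hiF) (Finset.ne_of_mem_erase hi)
            rw [mul_assoc, ← pow_add]
            apply mul_le_mul_of_nonneg_left _ (v.nonneg _)
            exact pow_le_pow_right₀ hgt.le (hn i i₀ hlt')
        _ = (∑ i ∈ F.erase i₀, v (c i)) * v z ^ n i₀ := by rw [Finset.sum_mul]
        _ ≤ _ := mul_le_mul_of_nonneg_right (hCs i₀) (by positivity)
    have hp : 0 < v z ^ n i₀ := pow_pos hzp _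
    have h5 : 0 < v z ^ G := pow_pos hzp _
    have h3 : (v (c i₀) * v z ^ G) * v z ^ n i₀ ≤ C * v z ^ n i₀ := by
      calc (v (c i₀) * v z ^ G) * v z ^ n i₀ = (v (c i₀) * v z ^ n i₀) * v z ^ G := by ring
        _ ≤ (∑ i ∈ F.erase i₀, v (c i) * v z ^ n i) * v z ^ G := mul_le_mul_of_nonneg_right h1 h5.le
        _ ≤ _ := h2
    have h4 := le_of_mul_le_mul_right h3 hp
    rw [div_lt_iff₀ hcp] at hG
    nlinarith

theorem gap_numberField {L : Type*} [Field L] [NumberField L] (z : L) (hz : z ≠ 0)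
    (hr : ∀ r : ℕ, 0 < r → z ^ r ≠ 1) {s : ℕ} (c : Fin s → L) (hc : c ≠ 0) :
    ∃ G : ℕ, ∀ n : Fin s → ℕ, Gaps G n → ∑ i, c i * z ^ n i ≠ 0 := by
  obtain ⟨v, hv⟩ := GN_aux_abv z hr
  exact GN_aux_gap v z hz hv c hc

end H567MM.P
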