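import Pool.Agent.H567R2.MM.Stubs

/-! MS: the theorem for modules. -/

namespace H567MM.P

open MeasureTheory Filter Topology

theorem MS_aux_coc {X R K : Type*} [CommRing R] [Field K] (S : X → X) (φ : X → Rˣ)
    (χ : R →+* K) (n : ℕ) (x : X) :
    coc S (fun x => Units.map (χ : R →* K) (φ x)) n x = Units.map (χ : R →* K) (coc S φ n x) := by
  induction n with
  | zero => simp [coc]
  | succ n ih => simp only [coc, ih, map_mul]

theorem MS_aux_set {X R M K : Type*} [CommRing R] [AddCommGroup M] [Module R M] [Field K]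
    (χ : R →+* K) (m₀ : M) (hχ : ∀ r : R, χ r = 0 ↔ r • m₀ = 0) (ψ : X → Rˣ) (g : Kˣ) :
    (∃ r : R, {x | Units.map (χ : R →* K) (ψ x) = g} = {x | ((ψ x : Rˣ) : R) • m₀ = r • m₀}) ∨
      {x | Units.map (χ : R →* K) (ψ x) = g} = ∅ := by
  by_cases h : ∃ r : R, χ r = (g : K)
  · obtain ⟨r, hr⟩ := h
    left
    refine ⟨r, ?_⟩
    ext x
    simp only [Set.mem_setOf_eq]
    rw [Units.ext_iff, Units.coe_map]
    have h1 : (χ : R →* K) ((ψ x : Rˣ) : R) = χ ((ψ x : Rˣ) : R) := rfl
    rw [h1, ← hr, ← sub_eq_zero, ← map_sub, hχ, sub_smul, sub_eq_zero]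
  · right
    ext x
    simp only [Set.mem_setOf_eq, Set.mem_empty_iff_false, iff_false]
    intro hx
    apply h
    refine ⟨((ψ x : Rˣ) : R), ?_⟩
    rw [← hx, Units.coe_map]
    rfl

theorem module_small {X R M : Type*} [MeasurableSpace X] (μ : Measure X)
    [IsProbabilityMeasure μ] (S : X → X) (hS : MeasurePreserving S μ μ) (hmix : MixOrd μ S 1)
    [CommRing R] [IsNoetherianRing R] [AddCommGroup M] [Module R M] [Countable M] (φ : X → Rˣ)
    (hφ : ∀ m m' : M, MeasurableSet {x | (φ x : R) • m = m'})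
    (H2 : ∀ m m' : M, m ≠ 0 →
      Tendsto (fun n => μ.real {x | cv S φ n x • m = m'}) atTop (𝓝 0))
    (s : ℕ) (m : Fin s → M) (hm : m ≠ 0) (ε : ℝ) (hε : 0 < ε) :
    ∃ G : ℕ, ∀ n : Fin s → ℕ, Gaps G n →
      μ.real {x | ∑ i, cv S φ (n i) x • m i = 0} < ε := by
  obtain ⟨K, _, _, χ, m₀, w, hm₀, hχ, hw, hrel⟩ := H567MM.residue (R := R) m hm
  have hmeas : ∀ g : Kˣ, MeasurableSet {x | (fun x => Units.map (χ : R →* K) (φ x)) x = g} := by
    intro g
    rcases MS_aux_set χ m₀ hχ φ g with ⟨r, hr⟩ | hr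
    · show MeasurableSet {x | Units.map (χ : R →* K) (φ x) = g}
      rw [hr]; exact hφ _ _
    · show MeasurableSet {x | Units.map (χ : R →* K) (φ x) = g}
      rw [hr]; exact MeasurableSet.empty
  have hH2 : ∀ g : Kˣ, Tendsto (fun n => μ.real
      {x | coc S (fun x => Units.map (χ : R →* K) (φ x)) n x = g}) atTop (𝓝 0) := by
    intro g
    by_cases h : ∃ r : R, χ r = (g : K)
    · obtain ⟨r, hr⟩ := h
      have h1 : ∀ n, {x | coc S (fun x => Units.map (χ : R →* K) (φ x)) n x = g}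
          = {x | cv S φ n x • m₀ = r • m₀} := by
        intro n
        ext x
        simp only [Set.mem_setOf_eq]
        rw [MS_aux_coc, Units.ext_iff, Units.coe_map]
        have h1 : (χ : R →* K) ((coc S φ n x : Rˣ) : R) = χ (cv S φ n x) := rfl
        rw [h1, ← hr, ← sub_eq_zero, ← map_sub, hχ, sub_smul, sub_eq_zero]
      simp only [h1]
      exact H2 m₀ _ hm₀
    · have h1 : ∀ n, {x | coc S (fun x => Units.map (χ : R →* K) (φ x)) n x = g} = ∅ := by
        intro n
        ext x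
        simp only [Set.mem_setOf_eq, Set.mem_empty_iff_false, iff_false]
        intro hx
        apply h
        rw [MS_aux_coc] at hx
        refine ⟨((coc S φ n x : Rˣ) : R), ?_⟩
        rw [← hx, Units.coe_map]
        rfl
      simp only [h1, measureReal_empty]
      exact tendsto_const_nhds
  obtain ⟨G, hG⟩ := H567MM.relation_small μ S hS hmix
    (fun x => Units.map (χ : R →* K) (φ x)) hmeas hH2 s w hw ε hε
  refine ⟨G, fun n hn => lt_of_le_of_lt (measureReal_mono ?_ (measure_ne_top _ _)) (hG n hn)⟩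
  intro x hx
  simp only [Set.mem_setOf_eq] at hx ⊢
  have h1 := hrel (fun i => cv S φ (n i) x) hx
  have h2 : ∀ i, cv S (fun x => Units.map (χ : R →* K) (φ x)) (n i) x = χ (cv S φ (n i) x) := by
    intro i
    unfold cv
    rw [MS_aux_coc, Units.coe_map]
    rfl
  simp only [h2]
  exact h1

end H567MM.P
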