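import Pool.Agent.H567R2.MM.Stubs

namespace H567MM.P

open TensorProduct

theorem NR_aux_countable {R M : Type*} [CommRing R] [AddCommGroup M] [Module R M] [Countable M]
    (p : Ideal R) [hp : p.IsPrime] (x : M) (hx : ∀ r : R, r ∈ p ↔ r • x = 0) :
    Countable p.ResidueField := by
  have h1 : Countable (R ⧸ p) := by
    have hinj : Function.Injective (fun q : R ⧸ p => (Quotient.out q : R) • x) := by
      intro q q' hqq
      have h2 : (Quotient.out q : R) • x = (Quotient.out q' : R) • x := hqq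
      have h3 : ((Quotient.out q : R) - (Quotient.out q' : R)) • x = 0 := by
        rw [sub_smul, h2, sub_self]
      have h4 : (Quotient.out q : R) - (Quotient.out q' : R) ∈ p := (hx _).2 h3
      have h5 : (Ideal.Quotient.mk p (Quotient.out q : R)) =
          Ideal.Quotient.mk p (Quotient.out q' : R) := (Ideal.Quotient.eq).2 h4
      have h6 : (Ideal.Quotient.mk p (Quotient.out q : R)) = q := Quotient.out_eq q
      have h7 : (Ideal.Quotient.mk p (Quotient.out q' : R)) = q' := Quotient.out_eq q'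
      rw [← h6, h5, h7]
    exact hinj.countable
  have hsurj : Function.Surjective (fun z : (R ⧸ p) × (R ⧸ p) =>
      algebraMap (R ⧸ p) p.ResidueField z.1 / algebraMap (R ⧸ p) p.ResidueField z.2) := by
    intro z
    obtain ⟨a, b, _, hab⟩ := IsFractionRing.div_surjective (A := R ⧸ p) z
    exact ⟨(a, b), hab⟩
  exact hsurj.countable

theorem residue.{u, v} {R : Type u} {M : Type v} [CommRing R] [IsNoetherianRing R] [AddCommGroup M] [Module R M]
    [Countable M] {s : ℕ} (m : Fin s → M) (hm : m ≠ 0) :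
    ∃ (K : Type u) (_ : Field K) (_ : Countable K) (χ : R →+* K) (m₀ : M) (w : Fin s → K),
      m₀ ≠ 0 ∧ (∀ r : R, χ r = 0 ↔ r • m₀ = 0) ∧ w ≠ 0 ∧
      ∀ r : Fin s → R, ∑ i, r i • m i = 0 → ∑ i, w i * χ (r i) = 0 := by
  classical
  let N : Submodule R M := Submodule.span R (Set.range m)
  have hfin : Module.Finite R N := Module.Finite.span_of_finite R (Set.finite_range m)
  obtain ⟨i0, hi0⟩ : ∃ i, m i ≠ 0 := by
    by_contra hcon
    push Not at hcon
    exact hm (funext hcon)
  have hmem : ∀ i, m i ∈ N := fun i => Submodule.subset_span ⟨i, rfl⟩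
  have hnt : Nontrivial N := ⟨⟨⟨m i0, hmem i0⟩, 0, fun h => hi0 (congrArg Subtype.val h)⟩⟩
  have hann : Module.annihilator R N ≠ ⊤ := by
    intro h
    have h1 : (1 : R) ∈ Module.annihilator R N := by rw [h]; trivial
    have h2 := (Module.mem_annihilator.1 h1) ⟨m i0, hmem i0⟩
    rw [one_smul] at h2
    exact hi0 (congrArg Subtype.val h2)
  obtain ⟨p, hpmin⟩ := Ideal.nonempty_minimalPrimes hann
  have hp : p.IsPrime := hpmin.isPrime
  have hass := Module.associatedPrimes.minimalPrimes_annihilator_subset_associatedPrimes R N hpmin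
  obtain ⟨_, x, hx⟩ := (isAssociatedPrime_iff).1 hass
  have hxp : ∀ r : R, r ∈ p ↔ r • (x : M) = 0 := by
    intro r
    rw [hx, Submodule.mem_colon_singleton, Submodule.mem_bot]
    constructor
    · intro h
      exact congrArg Subtype.val h
    · intro h
      exact Subtype.ext h
  have hx0 : (x : M) ≠ 0 := by
    intro h
    have h1 : (1 : R) ∈ p := (hxp 1).2 (by rw [h, smul_zero])
    exact hp.ne_top ((Ideal.eq_top_iff_one p).2 h1)
  have hsupp : (⟨p, hp⟩ : PrimeSpectrum R) ∈ Module.support R N := by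
    rw [Module.support_eq_zeroLocus]
    exact hpmin.1.2
  have hnt2 : Nontrivial (p.ResidueField ⊗[R] N) :=
    (Module.mem_support_iff_nontrivial_residueField_tensorProduct (R := R) (M := N) ⟨p, hp⟩).1 hsupp
  obtain ⟨z, hz⟩ := exists_ne (0 : p.ResidueField ⊗[R] N)
  obtain ⟨L, hL⟩ : ∃ L : Module.Dual p.ResidueField (p.ResidueField ⊗[R] N), L z ≠ 0 := by
    by_contra hcon
    push Not at hcon
    exact hz ((Module.forall_dual_apply_eq_zero_iff p.ResidueField z).1 hcon)
  refine ⟨p.ResidueField, inferInstance, NR_aux_countable p (x : M) hxp,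
    algebraMap R p.ResidueField, (x : M),
    fun i => L ((1 : p.ResidueField) ⊗ₜ[R] (⟨m i, hmem i⟩ : N)), hx0, ?_, ?_, ?_⟩
  · intro r
    rw [Ideal.algebraMap_residueField_eq_zero]
    exact hxp r
  · intro hw
    apply hL
    have hall : ∀ n : N, L ((1 : p.ResidueField) ⊗ₜ[R] n) = 0 := by
      rintro ⟨n, hn⟩
      refine Submodule.span_induction
        (p := fun y hy => L ((1 : p.ResidueField) ⊗ₜ[R] (⟨y, hy⟩ : N)) = 0) ?_ ?_ ?_ ?_ hn
      · rintro y ⟨i, rfl⟩
        exact congrFun hw i
      · have h0 : (⟨0, Submodule.zero_mem _⟩ : N) = 0 := rfl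
        rw [h0, TensorProduct.tmul_zero, map_zero]
      · intro a b ha hb h1 h2
        have h0 : (⟨a + b, Submodule.add_mem _ ha hb⟩ : N) = ⟨a, ha⟩ + ⟨b, hb⟩ := rfl
        rw [h0, TensorProduct.tmul_add, map_add, h1, h2, add_zero]
      · intro c a ha h1
        have h0 : (⟨c • a, Submodule.smul_mem _ c ha⟩ : N) = c • ⟨a, ha⟩ := rfl
        have h2 : (1 : p.ResidueField) ⊗ₜ[R] (c • (⟨a, ha⟩ : N)) =
            (algebraMap R p.ResidueField c) • ((1 : p.ResidueField) ⊗ₜ[R] (⟨a, ha⟩ : N)) := by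
          rw [TensorProduct.tmul_smul, algebraMap_smul]
        rw [h0, h2, map_smul, h1, smul_zero]
    have hall2 : L = 0 := by
      ext n
      simpa using hall n
    rw [hall2]
    rfl
  · intro r hr
    have hr2 : ∑ i, r i • (⟨m i, hmem i⟩ : N) = 0 := by
      apply Subtype.ext
      rw [AddSubmonoidClass.coe_finsetSum]
      exact hr
    have h1 : ∑ i, L ((1 : p.ResidueField) ⊗ₜ[R] (⟨m i, hmem i⟩ : N)) *
        algebraMap R p.ResidueField (r i) =
        L ((1 : p.ResidueField) ⊗ₜ[R] (∑ i, r i • (⟨m i, hmem i⟩ : N))) := by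
      rw [TensorProduct.tmul_sum, map_sum]
      refine Finset.sum_congr rfl fun i _ => ?_
      have h2 : (1 : p.ResidueField) ⊗ₜ[R] (r i • (⟨m i, hmem i⟩ : N)) =
            (algebraMap R p.ResidueField (r i)) •
              ((1 : p.ResidueField) ⊗ₜ[R] (⟨m i, hmem i⟩ : N)) := by
          rw [TensorProduct.tmul_smul, algebraMap_smul]
      rw [h2, map_smul, smul_eq_mul, mul_comm]
    rw [h1, hr2, TensorProduct.tmul_zero, map_zero]

end H567MM.P
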