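import Pool.Agent.H567R2.MM.Defs

/-! # SP: the skew product preserves the measure -/

namespace H567MM.P

open MeasureTheory Filter Topology

section
variable {M : Type*} [AddCommGroup M]

theorem SP_aux_meas {Z : Type*} [MeasurableSpace Z] (f : Z → Dual M)
    (h : ∀ m, Measurable (fun z => ((f z m : Circle) : ℂ))) : Measurable f := by
  rw [measurable_comap_iff, measurable_pi_iff]
  exact h

theorem SP_aux_eval (m : M) : Measurable (fun y : Dual M => ((y m : Circle) : ℂ)) := by
  have h : Measurable (fun (y : Dual M) (m : M) => ((y m : Circle) : ℂ)) := comap_measurable _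
  exact (measurable_pi_iff.1 h) m

theorem SP_aux_mul : Measurable (fun p : Dual M × Dual M => p.1 * p.2) := by
  apply SP_aux_meas
  intro m
  have h : (fun z : Dual M × Dual M => (((z.1 * z.2) m : Circle) : ℂ)) =
      fun z => ((z.1 m : Circle) : ℂ) * ((z.2 m : Circle) : ℂ) := by
    funext z
    rw [AddChar.mul_apply, Circle.coe_mul]
  rw [h]
  exact ((SP_aux_eval m).comp measurable_fst).mul ((SP_aux_eval m).comp measurable_snd)

/-- uniqueness of the Haar probability measure -/
theorem SP_aux_unique {ν ν' : Measure (Dual M)} (h : IsHaarProb ν) (h' : IsHaarProb ν') :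
    ν = ν' := by
  obtain ⟨hp, hi⟩ := h
  obtain ⟨hp', hi'⟩ := h'
  ext C hC
  have hS : MeasurableSet {p : Dual M × Dual M | p.1 * p.2 ∈ C} := SP_aux_mul hC
  have h1 : (ν'.prod ν) {p : Dual M × Dual M | p.1 * p.2 ∈ C} = ν C := by
    rw [Measure.prod_apply hS]
    have : ∀ z : Dual M, ν (Prod.mk z ⁻¹' {p : Dual M × Dual M | p.1 * p.2 ∈ C}) = ν C := by
      intro z
      exact (hi z).measure_preimage hC.nullMeasurableSet
    simp only [this]
    rw [lintegral_const, measure_univ, mul_one]
  have h2 : (ν'.prod ν) {p : Dual M × Dual M | p.1 * p.2 ∈ C} = ν' C := by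
    rw [Measure.prod_apply_symm hS]
    have : ∀ z : Dual M, ν' ((fun x => (x, z)) ⁻¹' {p : Dual M × Dual M | p.1 * p.2 ∈ C}) =
        ν' C := by
      intro z
      have h3 : (fun x => (x, z)) ⁻¹' {p : Dual M × Dual M | p.1 * p.2 ∈ C} =
          (fun y => z * y) ⁻¹' C := by
        ext x
        simp only [Set.mem_preimage, Set.mem_ofPred_eq, mul_comm x z]
      rw [h3]
      exact (hi' z).measure_preimage hC.nullMeasurableSet
    simp only [this]
    rw [lintegral_const, measure_univ, mul_one]
  rw [← h1, h2]

end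

section
variable {R M : Type*} [CommRing R] [AddCommGroup M] [Module R M]

theorem SP_aux_act_apply (r : Rˣ) (y : Dual M) (m : M) : act r y m = y ((r : R) • m) := rfl

theorem SP_aux_act_meas (r : Rˣ) : Measurable (act (M := M) r) := by
  apply SP_aux_meas
  intro m
  exact SP_aux_eval ((r : R) • m)

theorem SP_aux_act_mul (r : Rˣ) (y z : Dual M) : act r (y * z) = act r y * act r z := by
  ext m
  rw [AddChar.mul_apply, SP_aux_act_apply, SP_aux_act_apply, SP_aux_act_apply, AddChar.mul_apply]

theorem SP_aux_act_inv (r : Rˣ) (y : Dual M) : act r (act r⁻¹ y) = y := by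
  ext m
  rw [SP_aux_act_apply, SP_aux_act_apply, smul_smul, Units.inv_mul, one_smul]

theorem SP_aux_act_haar (r : Rˣ) {ν : Measure (Dual M)} (hν : IsHaarProb ν) :
    Measure.map (act r) ν = ν := by
  refine SP_aux_unique ?_ hν
  obtain ⟨hp, hi⟩ := hν
  refine ⟨Measure.isProbabilityMeasure_map (SP_aux_act_meas r).aemeasurable, ?_⟩
  intro z
  have hz : Measurable (fun y : Dual M => z * y) :=
    SP_aux_mul.comp (measurable_const.prodMk measurable_id)
  refine ⟨hz, ?_⟩
  rw [Measure.map_map hz (SP_aux_act_meas r)]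
  have h1 : (fun y : Dual M => z * y) ∘ act r = act r ∘ (fun y => act r⁻¹ z * y) := by
    funext y
    simp only [Function.comp_apply, SP_aux_act_mul, SP_aux_act_inv]
  rw [h1, ← Measure.map_map (SP_aux_act_meas r) (hi (act r⁻¹ z)).measurable, (hi (act r⁻¹ z)).map_eq]

theorem SP_aux_skew_meas {X : Type*} [MeasurableSpace X] [Countable M] (φ : X → Rˣ)
    (hφ : ∀ m m' : M, MeasurableSet {x | (φ x : R) • m = m'}) :
    Measurable (Function.uncurry (fun (x : X) (y : Dual M) => act (φ x) y)) := by
  apply SP_aux_meas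
  intro m
  let _ : MeasurableSpace M := ⊤
  have h1 : Measurable (fun p : M × (X × Dual M) => ((p.2.2 p.1 : Circle) : ℂ)) := by
    apply measurable_from_prod_countable_right
    intro m'
    exact (SP_aux_eval m').comp measurable_snd
  have h2 : Measurable (fun z : X × Dual M => (φ z.1 : R) • m) := by
    apply measurable_to_countable'
    intro m'
    exact measurable_fst (hφ m m')
  exact h1.comp (h2.prodMk measurable_id)

end

theorem skew_measurePreserving {X R M : Type*} [MeasurableSpace X] (μ : Measure X)
    [IsProbabilityMeasure μ] (S : X → X) (hS : MeasurePreserving S μ μ)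
    [CommRing R] [AddCommGroup M] [Module R M] [Countable M] (φ : X → Rˣ)
    (hφ : ∀ m m' : M, MeasurableSet {x | (φ x : R) • m = m'}) (ν : Measure (Dual M))
    (hν : IsHaarProb ν) : MeasurePreserving (skew (M := M) S φ) (μ.prod ν) (μ.prod ν) := by
  have := hν.1
  exact hS.skew_product (SP_aux_skew_meas φ hφ)
    (Eventually.of_forall fun x => SP_aux_act_haar (φ x) hν)

end H567MM.P
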