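import Pool.Agent.H567R2.MM.Defs

/-! Stubs (each is a task, see table h567_tasks). -/

namespace H567MM

open MeasureTheory Filter Topology

/-! ### CO: cocycles -/

theorem coc_add {X G : Type*} [CommMonoid G] (S : X → X) (φ : X → G) (m n : ℕ) (x : X) :
    coc S φ (m + n) x = coc S φ m x * coc S φ n (S^[m] x) := by sorry
theorem coc_measurable {X G : Type*} [MeasurableSpace X] [CommMonoid G] [Countable G]
    [MeasurableSpace G] [DiscreteMeasurableSpace G] (S : X → X) (hS : Measurable S) (φ : X → G)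
    (hφ : Measurable φ) (n : ℕ) : Measurable (coc S φ n) := by sorry
theorem skew_iterate {X R M : Type*} [CommRing R] [AddCommGroup M] [Module R M] (S : X → X)
    (φ : X → Rˣ) (n : ℕ) (x : X) (y : Dual M) :
    (skew S φ)^[n] (x, y) = (S^[n] x, act (coc S φ n x) y) := by sorry

/-! ### MP: products of mixing maps -/

theorem mix_prod {X Y : Type*} [MeasurableSpace X] [MeasurableSpace Y] (μ : Measure X)
    (ν : Measure Y) [IsProbabilityMeasure μ] [IsProbabilityMeasure ν] (S : X → X) (T : Y → Y)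
    (hS : MeasurePreserving S μ μ) (hT : MeasurePreserving T ν ν) (h1 : MixOrd μ S 1)
    (h2 : MixOrd ν T 1) : MixOrd (μ.prod ν) (Prod.map S T) 1 := by sorry

/-! ### ME: mixing implies ergodic; invariant functions -/

theorem ergodic_of_mix {X : Type*} [MeasurableSpace X] (μ : Measure X) [IsProbabilityMeasure μ]
    (S : X → X) (hS : MeasurePreserving S μ μ) (h : MixOrd μ S 1) : Ergodic S μ := by sorry
theorem const_of_ergodic {X κ : Type*} [MeasurableSpace X] (μ : Measure X)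
    [IsProbabilityMeasure μ] (S : X → X) (hS : Ergodic S μ) [Countable κ] [MeasurableSpace κ]
    [DiscreteMeasurableSpace κ] (u : X → κ) (hu : Measurable u)
    (hinv : ∀ᵐ x ∂μ, u (S x) = u x) : ∃ c, ∀ᵐ x ∂μ, u x = c := by sorry

/-! ### RE: positive recurrence gives an invariant set of finite measure -/

theorem exists_inv_set {Ω G : Type*} [MeasurableSpace Ω] (P : Measure Ω)
    [IsProbabilityMeasure P] (S : Ω → Ω) (hS : MeasurePreserving S P P) [CommGroup G]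
    [Countable G] [MeasurableSpace G] [DiscreteMeasurableSpace G] (ψ : Ω → G)
    (hψ : Measurable ψ) (c : ℝ) (hc : 0 < c)
    (h : ∀ N₀ : ℕ, ∃ N ≥ N₀, c * N ≤ ∑ n ∈ Finset.range N, P.real {ω | coc S ψ n ω = 1}) :
    ∃ B : Set (Ω × G), MeasurableSet B ∧ (P.prod Measure.count) B ≠ 0 ∧
      (P.prod Measure.count) B ≠ ⊤ ∧
      ∀ᵐ ω ∂P, ∀ g : G, ((ω, g) ∈ B ↔ (S ω, g * ψ ω) ∈ B) := by sorry

/-! ### CB: an invariant set of finite measure gives a coboundary -/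

theorem exists_cob {Ω G : Type*} [MeasurableSpace Ω] (P : Measure Ω)
    [IsProbabilityMeasure P] (S : Ω → Ω) (hS : Ergodic S P) [CommGroup G]
    [Countable G] [MeasurableSpace G] [DiscreteMeasurableSpace G] (ψ : Ω → G)
    (hψ : Measurable ψ) (B : Set (Ω × G)) (hB : MeasurableSet B)
    (h0 : (P.prod Measure.count) B ≠ 0) (h1 : (P.prod Measure.count) B ≠ ⊤)
    (hinv : ∀ᵐ ω ∂P, ∀ g : G, ((ω, g) ∈ B ↔ (S ω, g * ψ ω) ∈ B)) :
    ∃ f : ℕ, 0 < f ∧ ∃ u : Ω → G, Measurable u ∧ ∀ᵐ ω ∂P, u (S ω) = u ω * ψ ω ^ f := by sorry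

/-! ### CC: separation of variables -/

theorem exists_const {X G : Type*} [MeasurableSpace X] (μ : Measure X) [IsProbabilityMeasure μ]
    (S : X → X) (hS : MeasurePreserving S μ μ)
    (h3 : Ergodic (Prod.map S (Prod.map S S)) (μ.prod (μ.prod μ))) [CommGroup G] [Countable G]
    [MeasurableSpace G] [DiscreteMeasurableSpace G] (φ : X → G) (hφ : Measurable φ)
    (u : X × X → G) (hu : Measurable u)
    (h : ∀ᵐ z ∂(μ.prod μ), u (S z.1, S z.2) = u z * (φ z.1 / φ z.2)) :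
    ∃ (l : G) (p : X → G), Measurable p ∧ ∀ᵐ x ∂μ, φ x = l * p (S x) / p x := by sorry
theorem coc_const {X G : Type*} [MeasurableSpace X] (μ : Measure X) [IsProbabilityMeasure μ]
    (S : X → X) (hS : MeasurePreserving S μ μ) [CommGroup G] (φ p : X → G) (l : G) (f : ℕ)
    (h : ∀ᵐ x ∂μ, φ x ^ f = l * p (S x) / p x) :
    ∀ᵐ x ∂μ, ∀ n, coc S φ n x ^ f = l ^ n * p (S^[n] x) / p x := by sorry

/-! ### CA: assembly of ME, RE, CB, CC -/

theorem collision_const {X G : Type*} [MeasurableSpace X] (μ : Measure X)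
    [IsProbabilityMeasure μ] (S : X → X) (hS : MeasurePreserving S μ μ) (hmix : MixOrd μ S 1)
    [CommGroup G] [Countable G] [MeasurableSpace G] [DiscreteMeasurableSpace G] (φ : X → G)
    (hφ : Measurable φ) (c : ℝ) (hc : 0 < c)
    (h : ∀ N₀ : ℕ, ∃ N ≥ N₀, c * N ≤
      ∑ n ∈ Finset.range N, (μ.prod μ).real {z | coc S φ n z.1 = coc S φ n z.2}) :
    ∃ f : ℕ, 0 < f ∧ ∃ (l : G) (p : X → G), Measurable p ∧
      ∀ᵐ x ∂μ, ∀ n, coc S φ n x ^ f = l ^ n * p (S^[n] x) / p x := by sorry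

/-! ### GT, GN, GA: the gap lemma -/

/-- GT -/
theorem gap_transcendental {F K : Type*} [Field F] [Field K] [Algebra F K] (z : K)
    (hz : Transcendental F z) {s : ℕ} (c : Fin s → K) (hc : c ≠ 0) :
    ∃ G : ℕ, ∀ n : Fin s → ℕ, Gaps G n → ∑ i, c i * z ^ n i ≠ 0 := by sorry
/-- GN -/
theorem gap_numberField {L : Type*} [Field L] [NumberField L] (z : L) (hz : z ≠ 0)
    (hr : ∀ r : ℕ, 0 < r → z ^ r ≠ 1) {s : ℕ} (c : Fin s → L) (hc : c ≠ 0) :
    ∃ G : ℕ, ∀ n : Fin s → ℕ, Gaps G n → ∑ i, c i * z ^ n i ≠ 0 := by sorry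
/-- GA -/
theorem gap {K : Type*} [Field K] (z : K) (hz : z ≠ 0) (hr : ∀ r : ℕ, 0 < r → z ^ r ≠ 1)
    {s : ℕ} (c : Fin s → K) (hc : c ≠ 0) :
    ∃ G : ℕ, ∀ n : Fin s → ℕ, Gaps G n → ∑ i, c i * z ^ n i ≠ 0 := by sorry

/-! ### FC: cocycles cohomologous to a constant -/

theorem final_const {X K : Type*} [MeasurableSpace X] (μ : Measure X) [IsProbabilityMeasure μ]
    (S : X → X) (hS : MeasurePreserving S μ μ) [Field K] [Countable K] (φ : X → Kˣ) (f : ℕ)
    (hf : 0 < f) (l : Kˣ) (p : X → Kˣ) (hp : ∀ g : Kˣ, MeasurableSet {x | p x = g})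
    (h : ∀ᵐ x ∂μ, ∀ n, coc S φ n x ^ f = l ^ n * p (S^[n] x) / p x)
    (H2 : ∀ g : Kˣ, Tendsto (fun n => μ.real {x | coc S φ n x = g}) atTop (𝓝 0))
    {s : ℕ} (w : Fin s → K) (hw : w ≠ 0) (ε : ℝ) (hε : 0 < ε) :
    ∃ G : ℕ, ∀ n : Fin s → ℕ, Gaps G n →
      μ.real {x | ∑ i, w i * cv S φ (n i) x = 0} < ε := by sorry

/-! ### SM: second moment -/

theorem second_moment {X : Type*} [MeasurableSpace X] (μ : Measure X) [IsProbabilityMeasure μ]
    (S : X → X) (hS : MeasurePreserving S μ μ) (E : Set X) (hE : MeasurableSet E) (M : ℕ)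
    (q : ℕ → ℝ) (hq : ∀ t t', t < t' → t' < M →
      μ.real (S^[t] ⁻¹' E ∩ S^[t'] ⁻¹' E) ≤ q (t' - t)) (hq0 : ∀ n, 0 ≤ q n) :
    μ.real E ^ 2 * M ≤ 1 + 2 * ∑ n ∈ Finset.range M, q n := by sorry

/-! ### EL: elimination -/

theorem elimination {X K : Type*} [Field K] (S : X → X) (φ : X → Kˣ) (x : X) {s : ℕ}
    (w : Fin (s + 2) → K) (hw : ∀ i, w i ≠ 0) (n : Fin (s + 2) → ℕ) (t t' : ℕ) (htt : t < t')
    (h : ∑ i, w i * cv S φ (n i) (S^[t] x) = 0)
    (h' : ∑ i, w i * cv S φ (n i) (S^[t'] x) = 0) :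
    coc S φ (t' - t) (S^[n 0] (S^[t] x)) = coc S φ (t' - t) (S^[n 1] (S^[t] x)) ∨
    (∑ i : Fin (s + 1), w i.succ * br S φ t t' (S^[n i.succ] x) (S^[n 0] x) *
          cv S φ (n i.succ) x = 0 ∧
      (fun i : Fin (s + 1) => w i.succ * br S φ t t' (S^[n i.succ] x) (S^[n 0] x)) ≠ 0) := by
  sorry

/-! ### BD: the exceptional set is small -/

theorem bad_small {X K : Type*} [MeasurableSpace X] (μ : Measure X) [IsProbabilityMeasure μ]
    (S : X → X) (hS : MeasurePreserving S μ μ) [Field K] [Countable K] (φ : X → Kˣ)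
    (hφ : ∀ g : Kˣ, MeasurableSet {x | φ x = g}) {s : ℕ}
    (IH : ∀ v : Fin (s + 1) → K, v ≠ 0 → ∀ ε : ℝ, 0 < ε → ∃ G : ℕ, ∀ n : Fin (s + 1) → ℕ,
      Gaps G n → μ.real {x | ∑ i, v i * cv S φ (n i) x = 0} < ε)
    (w : Fin (s + 2) → K) (t t' : ℕ) (ε : ℝ) (hε : 0 < ε) :
    ∃ G : ℕ, ∀ n : Fin (s + 2) → ℕ, Gaps G n → μ.real {x |
      ∑ i : Fin (s + 1), w i.succ * br S φ t t' (S^[n i.succ] x) (S^[n 0] x) *
          cv S φ (n i.succ) x = 0 ∧
      (fun i : Fin (s + 1) => w i.succ * br S φ t t' (S^[n i.succ] x) (S^[n 0] x)) ≠ 0} < ε := by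
  sorry

/-! ### CL: collisions -/

theorem collision_limit {X G : Type*} [MeasurableSpace X] (μ : Measure X)
    [IsProbabilityMeasure μ] (S : X → X) (hS : MeasurePreserving S μ μ) (hmix : MixOrd μ S 1)
    [Countable G] (v : X → G) (hv : ∀ g : G, MeasurableSet {x | v x = g}) (ε : ℝ) (hε : 0 < ε) :
    ∃ N : ℕ, ∀ n : ℕ, N ≤ n →
      μ.real {x | v x = v (S^[n] x)} < (μ.prod μ).real {z | v z.1 = v z.2} + ε := by sorry

/-! ### RS: the theorem for fields -/

theorem relation_small {X K : Type*} [MeasurableSpace X] (μ : Measure X)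
    [IsProbabilityMeasure μ] (S : X → X) (hS : MeasurePreserving S μ μ) (hmix : MixOrd μ S 1)
    [Field K] [Countable K] (φ : X → Kˣ) (hφ : ∀ g : Kˣ, MeasurableSet {x | φ x = g})
    (H2 : ∀ g : Kˣ, Tendsto (fun n => μ.real {x | coc S φ n x = g}) atTop (𝓝 0))
    (s : ℕ) (w : Fin s → K) (hw : w ≠ 0) (ε : ℝ) (hε : 0 < ε) :
    ∃ G : ℕ, ∀ n : Fin s → ℕ, Gaps G n →
      μ.real {x | ∑ i, w i * cv S φ (n i) x = 0} < ε := by sorry

/-! ### NR: reduction from Noetherian modules to fields -/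

theorem residue.{u, v} {R : Type u} {M : Type v} [CommRing R] [IsNoetherianRing R] [AddCommGroup M] [Module R M]
    [Countable M] {s : ℕ} (m : Fin s → M) (hm : m ≠ 0) :
    ∃ (K : Type u) (_ : Field K) (_ : Countable K) (χ : R →+* K) (m₀ : M) (w : Fin s → K),
      m₀ ≠ 0 ∧ (∀ r : R, χ r = 0 ↔ r • m₀ = 0) ∧ w ≠ 0 ∧
      ∀ r : Fin s → R, ∑ i, r i • m i = 0 → ∑ i, w i * χ (r i) = 0 := by sorry

/-! ### MS: the theorem for modules -/

theorem module_small {X R M : Type*} [MeasurableSpace X] (μ : Measure X)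
    [IsProbabilityMeasure μ] (S : X → X) (hS : MeasurePreserving S μ μ) (hmix : MixOrd μ S 1)
    [CommRing R] [IsNoetherianRing R] [AddCommGroup M] [Module R M] [Countable M] (φ : X → Rˣ)
    (hφ : ∀ m m' : M, MeasurableSet {x | (φ x : R) • m = m'})
    (H2 : ∀ m m' : M, m ≠ 0 →
      Tendsto (fun n => μ.real {x | cv S φ n x • m = m'}) atTop (𝓝 0))
    (s : ℕ) (m : Fin s → M) (hm : m ≠ 0) (ε : ℝ) (hε : 0 < ε) :
    ∃ G : ℕ, ∀ n : Fin s → ℕ, Gaps G n →
      μ.real {x | ∑ i, cv S φ (n i) x • m i = 0} < ε := by sorry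

/-! ### FI: the integral of a character -/

theorem int_char {M : Type*} [AddCommGroup M] (ν : Measure (Dual M)) (hν : IsHaarProb ν) (m : M)
    (hm : m ≠ 0) : ∫ y, ((y m : Circle) : ℂ) ∂ν = 0 := by sorry

/-! ### FT: trigonometric polynomials are dense -/

theorem trig_dense {M : Type*} [AddCommGroup M] [Countable M] (ν : Measure (Dual M))
    [IsProbabilityMeasure ν] (C : Set (Dual M)) (hC : MeasurableSet C) (ε : ℝ) (hε : 0 < ε) :
    ∃ (N : ℕ) (c : Fin N → ℂ) (m : Fin N → M),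
      ∫ y, ‖C.indicator (fun _ => (1 : ℂ)) y - ∑ l, c l * ((y (m l) : Circle) : ℂ)‖ ∂ν < ε := by
  sorry

/-! ### FA: approximation in the product -/

/-- tensor functions -/
noncomputable def ten {X M : Type*} [AddCommGroup M] (A : Set X) (m : M) (z : X × Dual M) : ℂ :=
  A.indicator (fun _ => (1 : ℂ)) z.1 * ((z.2 m : Circle) : ℂ)

theorem ten_dense {X M : Type*} [MeasurableSpace X] (μ : Measure X) [IsProbabilityMeasure μ]
    [AddCommGroup M] [Countable M] (ν : Measure (Dual M)) [IsProbabilityMeasure ν]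
    (B : Set (X × Dual M)) (hB : MeasurableSet B) (ε : ℝ) (hε : 0 < ε) :
    ∃ (N : ℕ) (c : Fin N → ℂ) (A : Fin N → Set X) (m : Fin N → M), (∀ l, MeasurableSet (A l)) ∧
      ∫ z, ‖B.indicator (fun _ => (1 : ℂ)) z - ∑ l, c l * ten (A l) (m l) z‖ ∂(μ.prod ν) < ε := by
  sorry

/-! ### MF: mixing for functions -/

theorem mix_fun {X : Type*} [MeasurableSpace X] (μ : Measure X) [IsProbabilityMeasure μ]
    (T : X → X) (hT : MeasurePreserving T μ μ) (k : ℕ) (h : MixOrd μ T k)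
    (F : Fin (k + 1) → X → ℂ) (hF : ∀ j, Measurable (F j)) (b : ℝ) (hb : ∀ j x, ‖F j x‖ ≤ b)
    (ε : ℝ) (hε : 0 < ε) : ∃ G : ℕ, ∀ n : Fin (k + 1) → ℕ, n 0 = 0 →
      (∀ j : Fin k, n j.castSucc + G ≤ n j.succ) →
      ‖∫ x, ∏ j, F j (T^[n j] x) ∂μ - ∏ j, ∫ x, F j x ∂μ‖ < ε := by sorry

/-! ### SP: the skew product preserves the measure -/

theorem skew_measurePreserving {X R M : Type*} [MeasurableSpace X] (μ : Measure X)
    [IsProbabilityMeasure μ] (S : X → X) (hS : MeasurePreserving S μ μ)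
    [CommRing R] [AddCommGroup M] [Module R M] [Countable M] (φ : X → Rˣ)
    (hφ : ∀ m m' : M, MeasurableSet {x | (φ x : R) • m = m'}) (ν : Measure (Dual M))
    (hν : IsHaarProb ν) : MeasurePreserving (skew (M := M) S φ) (μ.prod ν) (μ.prod ν) := by sorry

/-! ### H2: mixing of the skew product gives the condition on the cocycle -/

theorem H2_of_mix {X R M : Type*} [MeasurableSpace X] (μ : Measure X)
    [IsProbabilityMeasure μ] (S : X → X) (hS : MeasurePreserving S μ μ)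
    [CommRing R] [AddCommGroup M] [Module R M] [Countable M] (φ : X → Rˣ)
    (hφ : ∀ m m' : M, MeasurableSet {x | (φ x : R) • m = m'}) (ν : Measure (Dual M))
    (hν : IsHaarProb ν) (h : MixOrd (μ.prod ν) (skew S φ) 1) (m m' : M) (hm : m ≠ 0) :
    Tendsto (fun n => μ.real {x | cv S φ n x • m = m'}) atTop (𝓝 0) := by sorry

/-! ### TM: mixing of tensor functions -/

theorem tensor_mix {X R M : Type*} [MeasurableSpace X] (μ : Measure X)
    [IsProbabilityMeasure μ] (S : X → X) (hS : MeasurePreserving S μ μ)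
    [CommRing R] [AddCommGroup M] [Module R M] [Countable M] (φ : X → Rˣ)
    (hφ : ∀ m m' : M, MeasurableSet {x | (φ x : R) • m = m'}) (ν : Measure (Dual M))
    (hν : IsHaarProb ν) (k : ℕ) (hk : MixOrd μ S k)
    (hsmall : ∀ m : Fin (k + 1) → M, m ≠ 0 → ∀ ε : ℝ, 0 < ε → ∃ G : ℕ,
      ∀ n : Fin (k + 1) → ℕ, Gaps G n → μ.real {x | ∑ i, cv S φ (n i) x • m i = 0} < ε)
    (A : Fin (k + 1) → Set X) (hA : ∀ j, MeasurableSet (A j)) (m : Fin (k + 1) → M)
    (ε : ℝ) (hε : 0 < ε) : ∃ G : ℕ, ∀ n : Fin (k + 1) → ℕ, n 0 = 0 →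
      (∀ j : Fin k, n j.castSucc + G ≤ n j.succ) →
      ‖∫ z, ∏ j, ten (A j) (m j) ((skew S φ)^[n j] z) ∂(μ.prod ν) -
        ∏ j, ∫ z, ten (A j) (m j) z ∂(μ.prod ν)‖ < ε := by sorry

/-! ### FF: from tensor functions to sets -/

theorem mix_of_ten {X M : Type*} [MeasurableSpace X] (μ : Measure X)
    [IsProbabilityMeasure μ] [AddCommGroup M] [Countable M] (ν : Measure (Dual M))
    [IsProbabilityMeasure ν] (T : X × Dual M → X × Dual M)
    (hT : MeasurePreserving T (μ.prod ν) (μ.prod ν)) (k : ℕ)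
    (h : ∀ (A : Fin (k + 1) → Set X) (m : Fin (k + 1) → M), (∀ j, MeasurableSet (A j)) →
      ∀ ε : ℝ, 0 < ε → ∃ G : ℕ, ∀ n : Fin (k + 1) → ℕ, n 0 = 0 →
      (∀ j : Fin k, n j.castSucc + G ≤ n j.succ) →
      ‖∫ z, ∏ j, ten (A j) (m j) (T^[n j] z) ∂(μ.prod ν) -
        ∏ j, ∫ z, ten (A j) (m j) z ∂(μ.prod ν)‖ < ε) : MixOrd (μ.prod ν) T k := by sorry

/-! ### RES: the result -/

theorem main {X R M : Type*} [MeasurableSpace X] (μ : Measure X)
    [IsProbabilityMeasure μ] (S : X → X) (hS : MeasurePreserving S μ μ)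
    [CommRing R] [IsNoetherianRing R] [AddCommGroup M] [Module R M] [Countable M] (φ : X → Rˣ)
    (hφ : ∀ m m' : M, MeasurableSet {x | (φ x : R) • m = m'}) (ν : Measure (Dual M))
    (hν : IsHaarProb ν) (k : ℕ) (hk : MixOrd μ S k)
    (h : MixOrd (μ.prod ν) (skew (M := M) S φ) 1) : MixOrd (μ.prod ν) (skew (M := M) S φ) k := by
  sorry

end H567MM
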