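import Pool.Agent.H567R2.MM.Stubs

/-! Task TM: mixing of tensor functions. -/

namespace H567MM.P

open MeasureTheory Filter Topology

theorem TM_aux_gaps {k : ℕ} (G : ℕ) (n : Fin (k + 1) → ℕ)
    (h : ∀ j : Fin k, n j.castSucc + G ≤ n j.succ) : Gaps G n := by
  have key : ∀ j : Fin (k + 1), ∀ i : Fin (k + 1), i < j → n i + G ≤ n j := by
    intro j
    induction j using Fin.induction with
    | zero => intro i hi; exact absurd hi (Fin.not_lt_zero i)
    | succ j ih =>
      intro i hi
      have h1 : i ≤ j.castSucc := by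
        rw [Fin.le_iff_val_le_val]
        have := Fin.lt_def.1 hi
        simp at this ⊢
        omega
      rcases h1.eq_or_lt with h2 | h2
      · rw [h2]; exact h j
      · have h3 := ih i h2
        have h4 := h j
        omega
  exact fun i j hij => key j i hij

theorem TM_aux_eval {M : Type*} [AddCommGroup M] (m : M) :
    Measurable (fun y : Dual M => ((y m : Circle) : ℂ)) := by
  have h1 : Measurable (fun (y : Dual M) (m : M) => (y m : ℂ)) := comap_measurable _
  exact (measurable_pi_apply m).comp h1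

theorem TM_aux_ten_meas {X M : Type*} [MeasurableSpace X] [AddCommGroup M] (A : Set X)
    (hA : MeasurableSet A) (m : M) : Measurable (ten A m : X × Dual M → ℂ) := by
  unfold ten
  exact ((measurable_const.indicator hA).comp measurable_fst).mul
    ((TM_aux_eval m).comp measurable_snd)

theorem TM_aux_ten_le {X M : Type*} [AddCommGroup M] (A : Set X) (m : M) (z : X × Dual M) :
    ‖ten A m z‖ ≤ 1 := by
  unfold ten
  rw [norm_mul, Circle.norm_coe, mul_one]
  by_cases h : z.1 ∈ A
  · simp [h]
  · simp [h]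

theorem TM_aux_act {R M : Type*} [CommRing R] [AddCommGroup M] [Module R M] (r : Rˣ)
    (y : Dual M) (m : M) : (act r y) m = y ((r : R) • m) := rfl

theorem TM_aux_prod {X R M : Type*} [CommRing R] [AddCommGroup M] [Module R M] (S : X → X)
    (φ : X → Rˣ) (k : ℕ) (A : Fin (k + 1) → Set X) (m : Fin (k + 1) → M) (n : Fin (k + 1) → ℕ)
    (x : X) (y : Dual M) :
    ∏ j, ten (A j) (m j) ((skew S φ)^[n j] (x, y)) =
      (∏ j, (A j).indicator (fun _ => (1 : ℂ)) (S^[n j] x)) *
        ((y (∑ j, cv S φ (n j) x • m j) : Circle) : ℂ) := by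
  have h1 : ∀ j, ten (A j) (m j) ((skew S φ)^[n j] (x, y)) =
      (A j).indicator (fun _ => (1 : ℂ)) (S^[n j] x) * ((y (cv S φ (n j) x • m j) : Circle) : ℂ) := by
    intro j
    rw [H567MM.skew_iterate]
    rfl
  rw [Finset.prod_congr rfl (fun j _ => h1 j), Finset.prod_mul_distrib]
  congr 1
  have h2 : y (∑ j, cv S φ (n j) x • m j) = ∏ j, y (cv S φ (n j) x • m j) := by
    have := map_prod y.toMonoidHom
      (fun j => Multiplicative.ofAdd (cv S φ (n j) x • m j)) Finset.univ
    simpa [← ofAdd_sum] using this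
  rw [h2]
  exact (map_prod Circle.coeHom _ _).symm

theorem TM_aux_int_char {M : Type*} [AddCommGroup M] (ν : Measure (Dual M)) (hν : IsHaarProb ν)
    (m : M) [Decidable (m = 0)] :
    ∫ y, ((y m : Circle) : ℂ) ∂ν = if m = 0 then 1 else 0 := by
  haveI := hν.1
  split_ifs with h
  · subst h
    simp
  · exact H567MM.int_char ν hν m h

theorem TM_aux_ten_int {X M : Type*} [MeasurableSpace X] [AddCommGroup M] (μ : Measure X)
    [IsProbabilityMeasure μ] (ν : Measure (Dual M)) (hν : IsHaarProb ν) (A : Set X)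
    (hA : MeasurableSet A) (m : M) [Decidable (m = 0)] :
    ∫ z, ten A m z ∂(μ.prod ν) = if m = 0 then ((μ.real A : ℝ) : ℂ) else 0 := by
  haveI := hν.1
  have h1 : ∫ z, ten A m z ∂(μ.prod ν) =
      (∫ x, A.indicator (fun _ => (1 : ℂ)) x ∂μ) * ∫ y, ((y m : Circle) : ℂ) ∂ν :=
    integral_prod_mul (fun x => A.indicator (fun _ => (1 : ℂ)) x)
      (fun y : Dual M => ((y m : Circle) : ℂ))
  rw [h1, TM_aux_int_char ν hν m, integral_indicator hA]
  split_ifs
  · simp
  · simp

theorem tensor_mix {X R M : Type*} [MeasurableSpace X] (μ : Measure X)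
    [IsProbabilityMeasure μ] (S : X → X) (hS : MeasurePreserving S μ μ)
    [CommRing R] [AddCommGroup M] [Module R M] [Countable M] (φ : X → Rˣ)
    (hφ : ∀ m m' : M, MeasurableSet {x | (φ x : R) • m = m'}) (ν : Measure (Dual M))
    (hν : IsHaarProb ν) (k : ℕ) (hk : MixOrd μ S k)
    (hsmall : ∀ m : Fin (k + 1) → M, m ≠ 0 → ∀ ε : ℝ, 0 < ε → ∃ G : ℕ,
      ∀ n : Fin (k + 1) → ℕ, Gaps G n → μ.real {x | ∑ i, cv S φ (n i) x • m i = 0} < ε)
    (A : Fin (k + 1) → Set X) (hA : ∀ j, MeasurableSet (A j)) (m : Fin (k + 1) → M)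
    (ε : ℝ) (hε : 0 < ε) : ∃ G : ℕ, ∀ n : Fin (k + 1) → ℕ, n 0 = 0 →
      (∀ j : Fin k, n j.castSucc + G ≤ n j.succ) →
      ‖∫ z, ∏ j, ten (A j) (m j) ((skew S φ)^[n j] z) ∂(μ.prod ν) -
        ∏ j, ∫ z, ten (A j) (m j) z ∂(μ.prod ν)‖ < ε := by
  classical
  haveI := hν.1
  have hT := H567MM.skew_measurePreserving (M := M) μ S hS φ hφ ν hν
  -- the integral
  have hmeas : ∀ n : Fin (k + 1) → ℕ, Measurable
      (fun z : X × Dual M => ∏ j, ten (A j) (m j) ((skew S φ)^[n j] z)) := by
    intro n
    apply Finset.measurable_prod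
    intro j _
    exact (TM_aux_ten_meas (A j) (hA j) (m j)).comp (hT.measurable.iterate (n j))
  have hint : ∀ n : Fin (k + 1) → ℕ, Integrable
      (fun z : X × Dual M => ∏ j, ten (A j) (m j) ((skew S φ)^[n j] z)) (μ.prod ν) := by
    intro n
    refine Integrable.of_bound (hmeas n).aestronglyMeasurable 1 (ae_of_all _ fun z => ?_)
    rw [norm_prod]
    exact Finset.prod_le_one (fun j _ => norm_nonneg _) fun j _ => TM_aux_ten_le _ _ _
  have hI : ∀ n : Fin (k + 1) → ℕ,
      ∫ z, ∏ j, ten (A j) (m j) ((skew S φ)^[n j] z) ∂(μ.prod ν) =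
      ∫ x, (∏ j, (A j).indicator (fun _ => (1 : ℂ)) (S^[n j] x)) *
        (if ∑ j, cv S φ (n j) x • m j = 0 then (1 : ℂ) else 0) ∂μ := by
    intro n
    rw [integral_prod _ (hint n)]
    congr 1
    ext x
    have h1 : ∀ y : Dual M, ∏ j, ten (A j) (m j) ((skew S φ)^[n j] (x, y)) =
      (∏ j, (A j).indicator (fun _ => (1 : ℂ)) (S^[n j] x)) *
        ((y (∑ j, cv S φ (n j) x • m j) : Circle) : ℂ) := fun y => TM_aux_prod S φ k A m n x y
    simp only [h1]
    rw [integral_const_mul, TM_aux_int_char ν hν]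
  have hprod : ∏ j, ∫ z, ten (A j) (m j) z ∂(μ.prod ν) =
      ∏ j, (if m j = 0 then ((μ.real (A j) : ℝ) : ℂ) else 0) :=
    Finset.prod_congr rfl fun j _ => TM_aux_ten_int μ ν hν (A j) (hA j) (m j)
  by_cases hm : m = 0
  · -- all characters are trivial
    obtain ⟨G, hG⟩ := hk A hA ε hε
    refine ⟨G, fun n hn0 hn => ?_⟩
    have h1 := hG n hn0 hn
    have h2 : ∫ x, (∏ j, (A j).indicator (fun _ => (1 : ℂ)) (S^[n j] x)) *
        (if ∑ j, cv S φ (n j) x • m j = 0 then (1 : ℂ) else 0) ∂μ =
        ((μ.real (⋂ j, S^[n j] ⁻¹' A j) : ℝ) : ℂ) := by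
      have h3 : ∀ x, (∏ j, (A j).indicator (fun _ => (1 : ℂ)) (S^[n j] x)) *
          (if ∑ j, cv S φ (n j) x • m j = 0 then (1 : ℂ) else 0) =
          (⋂ j, S^[n j] ⁻¹' A j).indicator (fun _ => (1 : ℂ)) x := by
        intro x
        have h4 : ∑ j, cv S φ (n j) x • m j = 0 := by simp [hm]
        rw [if_pos h4, mul_one]
        by_cases h5 : x ∈ ⋂ j, S^[n j] ⁻¹' A j
        · rw [Set.indicator_of_mem h5]
          apply Finset.prod_eq_one
          intro j _
          have := Set.mem_iInter.1 h5 j
          rw [Set.indicator_of_mem (show S^[n j] x ∈ A j from this)]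
        · rw [Set.indicator_of_notMem h5]
          rw [Set.mem_iInter, not_forall] at h5
          obtain ⟨j, hj⟩ := h5
          apply Finset.prod_eq_zero (Finset.mem_univ j)
          rw [Set.indicator_of_notMem]
          exact hj
      simp only [h3]
      rw [integral_indicator]
      · simp
      · exact MeasurableSet.iInter fun j => (hS.measurable.iterate (n j)) (hA j)
    rw [hI n, h2, hprod]
    have h6 : ∏ j, (if m j = 0 then ((μ.real (A j) : ℝ) : ℂ) else 0) =
        ((∏ j, μ.real (A j) : ℝ) : ℂ) := by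
      push_cast
      apply Finset.prod_congr rfl
      intro j _
      simp [hm]
    rw [h6, ← Complex.ofReal_sub, Complex.norm_real, Real.norm_eq_abs]
    exact h1
  · -- some character is nontrivial
    obtain ⟨G, hG⟩ := hsmall m hm ε hε
    refine ⟨G, fun n _ hn => ?_⟩
    have h1 := hG n (TM_aux_gaps G n hn)
    have h2 : ∏ j, (if m j = 0 then ((μ.real (A j) : ℝ) : ℂ) else 0) = 0 := by
      obtain ⟨j, hj⟩ := Function.ne_iff.1 hm
      apply Finset.prod_eq_zero (Finset.mem_univ j)
      have hj' : ¬ (m j = 0) := hj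
      rw [if_neg hj']
    rw [hI n, hprod, h2, sub_zero]
    refine lt_of_le_of_lt ?_ h1
    -- measurability of the set
    have hval : ∀ (t : ℕ) (a b : M), MeasurableSet {x | cv S φ t x • a = b} := by
      intro t
      induction t with
      | zero =>
        intro a b
        have : {x : X | cv S φ 0 x • a = b} = {x | a = b} := by
          ext x; simp [cv, coc]
        rw [this]
        exact MeasurableSet.const _
      | succ t ih =>
        intro a b
        have h3 : {x : X | cv S φ (t + 1) x • a = b} =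
            ⋃ c : M, (S^[t] ⁻¹' {x | (φ x : R) • a = c}) ∩ {x | cv S φ t x • c = b} := by
          ext x
          simp only [Set.mem_iUnion, Set.mem_inter_iff, Set.mem_preimage, Set.mem_setOf_eq]
          constructor
          · intro h
            refine ⟨(φ (S^[t] x) : R) • a, rfl, ?_⟩
            rw [← h, smul_smul]
            simp [cv, coc]
          · rintro ⟨c, rfl, h⟩
            rw [← h, smul_smul]
            simp [cv, coc]
        rw [h3]
        exact MeasurableSet.iUnion fun c =>
          ((hS.measurable.iterate t) (hφ a c)).inter (ih c b)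
    have hset : MeasurableSet {x | ∑ i, cv S φ (n i) x • m i = 0} := by
      have h3 : {x | ∑ i, cv S φ (n i) x • m i = 0} =
          ⋃ c : {c : Fin (k + 1) → M // ∑ i, c i = 0}, ⋂ i, {x | cv S φ (n i) x • m i = c.1 i} := by
        ext x
        simp only [Set.mem_setOf_eq, Set.mem_iUnion, Set.mem_iInter]
        constructor
        · intro h
          exact ⟨⟨fun i => cv S φ (n i) x • m i, h⟩, fun i => rfl⟩
        · rintro ⟨⟨c, hc⟩, h⟩
          rw [← hc]
          exact Finset.sum_congr rfl fun i _ => h i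
      rw [h3]
      exact MeasurableSet.iUnion fun c => MeasurableSet.iInter fun i => hval _ _ _
    calc ‖∫ x, (∏ j, (A j).indicator (fun _ => (1 : ℂ)) (S^[n j] x)) *
          (if ∑ j, cv S φ (n j) x • m j = 0 then (1 : ℂ) else 0) ∂μ‖ ≤
          ∫ x, {x | ∑ i, cv S φ (n i) x • m i = 0}.indicator (fun _ => (1 : ℝ)) x ∂μ := by
          apply norm_integral_le_of_norm_le
          · exact (integrable_const (1 : ℝ)).indicator hset
          · refine ae_of_all _ fun x => ?_
            by_cases h3 : ∑ j, cv S φ (n j) x • m j = 0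
            · rw [if_pos h3, mul_one, norm_prod, Set.indicator_of_mem (show x ∈ {x | ∑ i, cv S φ (n i) x • m i = 0} from h3)]
              apply Finset.prod_le_one (fun j _ => norm_nonneg _)
              intro j _
              by_cases h4 : S^[n j] x ∈ A j
              · simp [h4]
              · simp [h4]
            · rw [if_neg h3, mul_zero, norm_zero]
              exact Set.indicator_nonneg (fun _ _ => zero_le_one) x
      _ = μ.real {x | ∑ i, cv S φ (n i) x • m i = 0} := by
          rw [integral_indicator hset]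
          simp

end H567MM.P
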